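import Mathlib

open Filter Topology

namespace Pool.Agent.Lib.MP_a65cb7_co

/-- vertices of the `k`-fold product of `K_{m,m}` -/
abbrev Vtx (k m : ℕ) := Fin k → (Fin m ⊕ Fin m)

/-- the two elements lie on different sides -/
def Opp {m : ℕ} (s s' : Fin m ⊕ Fin m) : Prop := s.isLeft ≠ s'.isLeft

lemma Opp.symm {m : ℕ} {s s' : Fin m ⊕ Fin m} (h : Opp s s') : Opp s' s := Ne.symm h

/-- The `k`-fold Cartesian product of `K_{m,m}`. -/
def prodGraph (k m : ℕ) : SimpleGraph (Vtx k m) where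
  Adj u v := ∃ i, (∀ j, j ≠ i → u j = v j) ∧ Opp (u i) (v i)
  symm := ⟨by
    rintro u v ⟨i, h1, h2⟩
    exact ⟨i, fun j hj => (h1 j hj).symm, h2.symm⟩⟩
  loopless := ⟨by
    rintro u ⟨i, _, h2⟩
    exact h2 rfl⟩

/-- base positions of a factor : the two parts on the two axes -/
noncomputable def g0 {m : ℕ} : Fin m ⊕ Fin m → ℂ
  | .inl a => (((a : ℕ) + 1 : ℝ) : ℂ)
  | .inr b => (((b : ℕ) + 1 : ℝ) : ℂ) * Complex.I

/-- position of a vertex, for arbitrary factor placements -/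
noncomputable def pos {k m : ℕ} (L : ℝ) (g : Fin k → (Fin m ⊕ Fin m) → ℂ) (v : Vtx k m) : ℂ :=
  ∑ i : Fin k, ((L ^ (i : ℕ) : ℝ) : ℂ) * g i (v i)

lemma pos_sub {k m : ℕ} (L : ℝ) (g : Fin k → (Fin m ⊕ Fin m) → ℂ) (u v : Vtx k m) :
    pos L g u - pos L g v = ∑ i : Fin k, ((L ^ (i : ℕ) : ℝ) : ℂ) * (g i (u i) - g i (v i)) := by
  simp only [pos, ← Finset.sum_sub_distrib, mul_sub]

lemma pos_sub_of_eq {k m : ℕ} (L : ℝ) (g : Fin k → (Fin m ⊕ Fin m) → ℂ) {u v : Vtx k m} {i : Fin k}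
    (h : ∀ j, j ≠ i → u j = v j) :
    pos L g u - pos L g v = ((L ^ (i : ℕ) : ℝ) : ℂ) * (g i (u i) - g i (v i)) := by
  rw [pos_sub, Finset.sum_eq_single i]
  · intro j _ hj
    rw [h j hj]; simp
  · intro h; exact absurd (Finset.mem_univ i) h

lemma edge_preserved {k m : ℕ} (L : ℝ) (g g' : Fin k → (Fin m ⊕ Fin m) → ℂ)
    (hg : ∀ i s s', Opp s s' → ‖g' i s - g' i s'‖ = ‖g i s - g i s'‖) {u v : Vtx k m}
    (h : (prodGraph k m).Adj u v) : ‖pos L g' u - pos L g' v‖ = ‖pos L g u - pos L g v‖ := by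
  obtain ⟨i, h1, h2⟩ := h
  rw [pos_sub_of_eq L g' h1, pos_sub_of_eq L g h1, norm_mul, norm_mul, hg i _ _ h2]

/-- digits lemma -/
lemma digits_zero (m : ℕ) : ∀ (k : ℕ) (d : Fin k → ℤ), (∀ j, |d j| ≤ m) →
    ∑ j : Fin k, ((m + 1 : ℤ)) ^ (j : ℕ) * d j = 0 → ∀ j, d j = 0 := by
  intro k
  induction k with
  | zero => intro d _ _ j; exact j.elim0
  | succ k ih =>
    intro d hd hs
    rw [Fin.sum_univ_succ] at hs
    simp only [Fin.val_zero, pow_zero, one_mul, Fin.val_succ] at hs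
    have h1 : ∑ j : Fin k, ((m + 1 : ℤ)) ^ ((j : ℕ) + 1) * d j.succ =
        (m + 1) * ∑ j : Fin k, ((m + 1 : ℤ)) ^ (j : ℕ) * d j.succ := by
      rw [Finset.mul_sum]
      apply Finset.sum_congr rfl
      intro j _
      ring
    rw [h1] at hs
    have h0 : d 0 = 0 := by
      apply Int.eq_zero_of_abs_lt_dvd (m := (m + 1 : ℤ))
      · exact ⟨-∑ j : Fin k, ((m + 1 : ℤ)) ^ (j : ℕ) * d j.succ, by linarith⟩
      · have := hd 0
        omega
    rw [h0, zero_add] at hs
    have h2 : ∑ j : Fin k, ((m + 1 : ℤ)) ^ (j : ℕ) * d j.succ = 0 := by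
      rcases mul_eq_zero.mp hs with h | h
      · omega
      · exact h
    have h3 := ih (fun j => d j.succ) (fun j => hd j.succ) h2
    intro j
    refine Fin.cases h0 (fun i => h3 i) j

/-- integer real part of `g0` -/
def reD {m : ℕ} : Fin m ⊕ Fin m → ℤ
  | .inl a => (a : ℕ) + 1
  | .inr _ => 0

/-- integer imaginary part of `g0` -/
def imD {m : ℕ} : Fin m ⊕ Fin m → ℤ
  | .inl _ => 0
  | .inr b => (b : ℕ) + 1

lemma g0_re {m : ℕ} (s : Fin m ⊕ Fin m) : (g0 s).re = (reD s : ℝ) := by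
  cases s <;> simp [g0, reD]

lemma g0_im {m : ℕ} (s : Fin m ⊕ Fin m) : (g0 s).im = (imD s : ℝ) := by
  cases s <;> simp [g0, imD]

lemma reD_bound {m : ℕ} (s s' : Fin m ⊕ Fin m) : |reD s - reD s'| ≤ m := by
  rw [abs_le]
  rcases s with a | a <;> rcases s' with b | b <;> simp only [reD] <;> constructor <;>
    first
    | (have := a.isLt; have := b.isLt; omega)

lemma imD_bound {m : ℕ} (s s' : Fin m ⊕ Fin m) : |imD s - imD s'| ≤ m := by
  rw [abs_le]
  rcases s with a | a <;> rcases s' with b | b <;> simp only [imD] <;> constructor <;>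
    first
    | (have := a.isLt; have := b.isLt; omega)

lemma eq_of_D {m : ℕ} {s s' : Fin m ⊕ Fin m} (h1 : reD s = reD s') (h2 : imD s = imD s') : s = s' := by
  rcases s with a | a <;> rcases s' with b | b <;> simp only [reD, imD] at h1 h2
  · congr 1; apply Fin.ext; omega
  · omega
  · omega
  · congr 1; apply Fin.ext; omega

/-- base scale -/
noncomputable def Lam (m : ℕ) : ℝ := (m : ℝ) + 1

/-- The partial position differences do not vanish. -/
lemma partial_ne_zero {k m : ℕ} (u v : Vtx k m) (T : Finset (Fin k)) (hT : ∃ j ∈ T, u j ≠ v j) :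
    ∑ i ∈ T, (((Lam m) ^ (i : ℕ) : ℝ) : ℂ) * (g0 (u i) - g0 (v i)) ≠ 0 := by
  classical
  intro h0
  obtain ⟨j, hjT, hj⟩ := hT
  apply hj
  have hre : ∑ i : Fin k, ((m + 1 : ℤ)) ^ (i : ℕ) * (if i ∈ T then reD (u i) - reD (v i) else 0) = 0 := by
    have := congrArg Complex.re h0
    rw [Complex.re_sum] at this
    simp only [Complex.re_ofReal_mul, Complex.sub_re, g0_re, Complex.zero_re, Lam] at this
    have h2 : ((∑ i : Fin k, ((m + 1 : ℤ)) ^ (i : ℕ) * (if i ∈ T then reD (u i) - reD (v i) else 0) : ℤ) : ℝ) = 0 := by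
      rw [← this, ← Finset.sum_subset (Finset.subset_univ T)]
      · push_cast
        apply Finset.sum_congr rfl
        intro i hi
        simp [hi]
      · intro i _ hi
        simp [hi]
    exact_mod_cast h2
  have him : ∑ i : Fin k, ((m + 1 : ℤ)) ^ (i : ℕ) * (if i ∈ T then imD (u i) - imD (v i) else 0) = 0 := by
    have := congrArg Complex.im h0
    rw [Complex.im_sum] at this
    simp only [Complex.im_ofReal_mul, Complex.sub_im, g0_im, Complex.zero_im, Lam] at this
    have h2 : ((∑ i : Fin k, ((m + 1 : ℤ)) ^ (i : ℕ) * (if i ∈ T then imD (u i) - imD (v i) else 0) : ℤ) : ℝ) = 0 := by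
      rw [← this, ← Finset.sum_subset (Finset.subset_univ T)]
      · push_cast
        apply Finset.sum_congr rfl
        intro i hi
        simp [hi]
      · intro i _ hi
        simp [hi]
    exact_mod_cast h2
  have h1 := digits_zero m k _ (by
    intro i
    by_cases hi : i ∈ T
    · simp only [hi, if_true]; exact reD_bound _ _
    · simp [hi]) hre j
  have h2 := digits_zero m k _ (by
    intro i
    by_cases hi : i ∈ T
    · simp only [hi, if_true]; exact imD_bound _ _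
    · simp [hi]) him j
  simp only [hjT, if_true] at h1 h2
  exact eq_of_D (by omega) (by omega)

/-- base placement -/
noncomputable def z0 {k m : ℕ} (v : Vtx k m) : ℂ := pos (Lam m) (fun _ => g0) v

lemma z0_injective {k m : ℕ} : Function.Injective (z0 : Vtx k m → ℂ) := by
  intro u v h
  by_contra hne
  have : ∃ j, u j ≠ v j := by
    by_contra h'
    push Not at h'
    exact hne (funext h')
  obtain ⟨j, hj⟩ := this
  apply partial_ne_zero u v Finset.univ ⟨j, Finset.mem_univ _, hj⟩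
  have := pos_sub (Lam m) (fun _ : Fin k => g0) u v
  rw [← this]
  exact sub_eq_zero.mpr h

end Pool.Agent.Lib.MP_a65cb7_co
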