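import Mathlib

open Topology

namespace Pool.Agent.Lib.MP_a65cb7_co

/-- Two realizations of `G` are equivalent if all edges have the same length in both. -/
def Equivalent {V : Type*} (G : SimpleGraph V) (p q : V → EuclideanSpace ℝ (Fin 2)) : Prop :=
  ∀ i j, G.Adj i j → dist (p i) (p j) = dist (q i) (q j)

/-- Two realizations are congruent if all pairs of vertices have the same distance in both. -/
def Congruent {V : Type*} (p q : V → EuclideanSpace ℝ (Fin 2)) : Prop :=
  ∀ i j, dist (p i) (p j) = dist (q i) (q j)

/-- The framework `(G, p)` is rigid if `p` has a neighbourhood `U` such that every realization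
in `U` which is equivalent to `p` is congruent to `p`. -/
def IsRigid {V : Type*} (G : SimpleGraph V) (p : V → EuclideanSpace ℝ (Fin 2)) : Prop :=
  ∃ U ∈ 𝓝 p, ∀ q ∈ U, Equivalent G p q → Congruent p q

end Pool.Agent.Lib.MP_a65cb7_co
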