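import Pool.Agent.Lib.MP_a65cb7_co.Core

open Filter Topology

namespace Pool.Agent.Lib.MP_a65cb7_co

/-! ### rotations -/

lemma norm_rot_sq (D0 D1 : ℂ) (θ : ℝ) :
    ‖D0 + Complex.exp (θ * Complex.I) * D1‖ ^ 2 =
      D0.re ^ 2 + D0.im ^ 2 + D1.re ^ 2 + D1.im ^ 2 +
        2 * ((D0.re * D1.re + D0.im * D1.im) * Real.cos θ +
          (D0.im * D1.re - D0.re * D1.im) * Real.sin θ) := by
  rw [Complex.sq_norm, Complex.normSq_apply]
  have h1 : (Complex.exp (θ * Complex.I)).re = Real.cos θ := Complex.exp_ofReal_mul_I_re θ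
  have h2 : (Complex.exp (θ * Complex.I)).im = Real.sin θ := Complex.exp_ofReal_mul_I_im θ
  simp only [Complex.add_re, Complex.add_im, Complex.mul_re, Complex.mul_im, h1, h2]
  have h3 := Real.sin_sq_add_cos_sq θ
  linear_combination (D1.re ^ 2 + D1.im ^ 2) * h3

lemma rot_changes {D0 D1 : ℂ} (h0 : D0 ≠ 0) (h1 : D1 ≠ 0) :
    ∃ᶠ θ : ℝ in 𝓝 0, ‖D0 + Complex.exp (θ * Complex.I) * D1‖ ≠ ‖D0 + D1‖ := by
  intro hev
  simp only [not_not] at hev
  obtain ⟨ε, hε, hball⟩ := Metric.eventually_nhds_iff.mp hev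
  set θ : ℝ := min (ε / 2) 1 with hθ
  have hθpos : 0 < θ := lt_min (by linarith) one_pos
  have hθε : θ < ε := lt_of_le_of_lt (min_le_left _ _) (by linarith)
  have hθ1 : θ ≤ 1 := min_le_right _ _
  have e1 := hball (y := θ) (by rw [Real.dist_eq, sub_zero, abs_of_pos hθpos]; exact hθε)
  have e2 := hball (y := -θ) (by rw [Real.dist_eq, sub_zero, abs_neg, abs_of_pos hθpos]; exact hθε)
  have k0 := norm_rot_sq D0 D1 0
  have k1 := norm_rot_sq D0 D1 θ
  have k2 := norm_rot_sq D0 D1 (-θ)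
  rw [e1] at k1
  rw [e2] at k2
  simp only [Complex.ofReal_zero, zero_mul, Complex.exp_zero, one_mul, Real.cos_zero, mul_one,
    Real.sin_zero, mul_zero, add_zero] at k0
  rw [Real.cos_neg, Real.sin_neg] at k2
  have hP : (D0.re * D1.re + D0.im * D1.im) * (Real.cos θ - 1) = 0 := by linarith
  have hQ : (D0.im * D1.re - D0.re * D1.im) * Real.sin θ = 0 := by linarith
  have hcos : Real.cos θ ≠ 1 := by
    intro hc
    have hpi : (3 : ℝ) < Real.pi := Real.pi_gt_three
    have := (Real.cos_eq_one_iff_of_lt_of_lt (by linarith) (by linarith)).mp hc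
    linarith
  have hsin : Real.sin θ ≠ 0 := by
    have hpi : (3 : ℝ) < Real.pi := Real.pi_gt_three
    exact (Real.sin_pos_of_pos_of_lt_pi hθpos (by linarith)).ne'
  have hP0 : D0.re * D1.re + D0.im * D1.im = 0 := by
    rcases mul_eq_zero.mp hP with h | h
    · exact h
    · exact absurd (by linarith) hcos
  have hQ0 : D0.im * D1.re - D0.re * D1.im = 0 := by
    rcases mul_eq_zero.mp hQ with h | h
    · exact h
    · exact absurd h hsin
  have hprod : (D0.re ^ 2 + D0.im ^ 2) * (D1.re ^ 2 + D1.im ^ 2) = 0 := by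
    have : (D0.re ^ 2 + D0.im ^ 2) * (D1.re ^ 2 + D1.im ^ 2) =
      (D0.re * D1.re + D0.im * D1.im) ^ 2 + (D0.im * D1.re - D0.re * D1.im) ^ 2 := by ring
    rw [this, hP0, hQ0]; ring
  rcases mul_eq_zero.mp hprod with h | h
  · apply h0
    have ha : D0.re = 0 := by nlinarith [sq_nonneg D0.re, sq_nonneg D0.im]
    have hb : D0.im = 0 := by nlinarith [sq_nonneg D0.re, sq_nonneg D0.im]
    exact Complex.ext ha hb
  · apply h1
    have ha : D1.re = 0 := by nlinarith [sq_nonneg D1.re, sq_nonneg D1.im]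
    have hb : D1.im = 0 := by nlinarith [sq_nonneg D1.re, sq_nonneg D1.im]
    exact Complex.ext ha hb

/-! ### the flex of one factor -/

/-- moved factor: the points of the first axis move outwards, the others inwards -/
noncomputable def gt {m : ℕ} (t : ℝ) : Fin m ⊕ Fin m → ℂ
  | .inl a => ((√(((a : ℕ) + 1 : ℝ) ^ 2 + t) : ℝ) : ℂ)
  | .inr b => ((√(((b : ℕ) + 1 : ℝ) ^ 2 - t) : ℝ) : ℂ) * Complex.I

lemma gt_zero {m : ℕ} (s : Fin m ⊕ Fin m) : gt 0 s = g0 s := by
  rcases s with a | b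
  · simp only [gt, g0, add_zero]
    rw [Real.sqrt_sq (by positivity)]
  · simp only [gt, g0, sub_zero]
    rw [Real.sqrt_sq (by positivity)]

lemma gt_cont {m : ℕ} (s : Fin m ⊕ Fin m) : Continuous (fun t : ℝ => gt t s) := by
  rcases s with a | b
  · simp only [gt]
    fun_prop
  · simp only [gt]
    fun_prop

lemma one_le_sq (a : ℕ) : (1 : ℝ) ≤ ((a : ℝ) + 1) ^ 2 := by
  have : (0 : ℝ) ≤ (a : ℝ) := Nat.cast_nonneg a
  nlinarith

lemma gt_edge {m : ℕ} {t : ℝ} (ht : |t| ≤ 1) {s s' : Fin m ⊕ Fin m} (h : Opp s s') :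
    ‖gt t s - gt t s'‖ = ‖g0 s - g0 s'‖ := by
  have key : ∀ (a b : Fin m), ‖gt t (.inl a) - gt t (.inr b)‖ = ‖g0 (.inl a) - g0 (.inr b)‖ := by
    intro a b
    have hA := one_le_sq (a : ℕ)
    have hB := one_le_sq (b : ℕ)
    have ht' := abs_le.mp ht
    rw [← sq_eq_sq₀ (norm_nonneg _) (norm_nonneg _), Complex.sq_norm, Complex.sq_norm,
      Complex.normSq_apply, Complex.normSq_apply]
    simp only [gt, g0, Complex.sub_re, Complex.sub_im, Complex.ofReal_re, Complex.ofReal_im,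
      Complex.re_ofReal_mul, Complex.im_ofReal_mul, Complex.I_re, Complex.I_im, mul_zero, mul_one,
      sub_zero, zero_sub]
    have e1 : √(((a : ℕ) + 1 : ℝ) ^ 2 + t) * √(((a : ℕ) + 1 : ℝ) ^ 2 + t) = ((a : ℕ) + 1 : ℝ) ^ 2 + t :=
      Real.mul_self_sqrt (by linarith)
    have e2 : √(((b : ℕ) + 1 : ℝ) ^ 2 - t) * √(((b : ℕ) + 1 : ℝ) ^ 2 - t) = ((b : ℕ) + 1 : ℝ) ^ 2 - t :=
      Real.mul_self_sqrt (by linarith)
    rw [neg_mul_neg, e1, e2]
    ring
  rcases s with a | a <;> rcases s' with b | b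
  · exact absurd rfl h
  · exact key a b
  · rw [norm_sub_rev, norm_sub_rev (g0 _)]; exact key b a
  · exact absurd rfl h

lemma sqrt_change {A B t : ℝ} (hA : 1 ≤ A) (hB : 1 ≤ B) (hAB : A ≠ B) (ht : |t| < 1) (ht0 : t ≠ 0) :
    |√(A + t) - √(B + t)| ≠ |√A - √B| := by
  have ht' := abs_lt.mp ht
  intro h
  have a1 : 0 < √(A + t) := Real.sqrt_pos.mpr (by linarith)
  have a2 : 0 < √(B + t) := Real.sqrt_pos.mpr (by linarith)
  have a3 : 0 < √A := Real.sqrt_pos.mpr (by linarith)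
  have a4 : 0 < √B := Real.sqrt_pos.mpr (by linarith)
  have s1 : √(A + t) ^ 2 = A + t := Real.sq_sqrt (by linarith)
  have s2 : √(B + t) ^ 2 = B + t := Real.sq_sqrt (by linarith)
  have s3 : √A ^ 2 = A := Real.sq_sqrt (by linarith)
  have s4 : √B ^ 2 = B := Real.sq_sqrt (by linarith)
  -- square
  have hsq : (√(A + t) - √(B + t)) ^ 2 = (√A - √B) ^ 2 := by
    rw [← sq_abs, h, sq_abs]
  have hprod : √(A + t) * √(B + t) = √A * √B + t := by nlinarith
  have hprod2 : (A + t) * (B + t) = (√A * √B + t) ^ 2 := by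
    rw [← hprod, mul_pow, s1, s2]
  have hAB2 : (√A * √B) ^ 2 = A * B := by rw [mul_pow, s3, s4]
  have hlin : t * (A + B) = t * (2 * (√A * √B)) := by nlinarith
  have hlin2 : A + B = 2 * (√A * √B) := mul_left_cancel₀ ht0 hlin
  have hz : (√A - √B) ^ 2 = 0 := by nlinarith
  have : √A = √B := by
    have := pow_eq_zero_iff (two_ne_zero) |>.mp hz
    linarith
  apply hAB
  rw [← s3, ← s4, this]

lemma gt_change {m : ℕ} {t : ℝ} (ht : |t| < 1) (ht0 : t ≠ 0) {s s' : Fin m ⊕ Fin m}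
    (hne : s ≠ s') (h : s.isLeft = s'.isLeft) :
    ‖gt t s - gt t s'‖ ≠ ‖g0 s - g0 s'‖ := by
  have hsqinj : ∀ a b : Fin m, a ≠ b → ((a : ℕ) + 1 : ℝ) ^ 2 ≠ ((b : ℕ) + 1 : ℝ) ^ 2 := by
    intro a b hab h2
    have ha : (0 : ℝ) ≤ (a : ℕ) + 1 := by positivity
    have hb : (0 : ℝ) ≤ (b : ℕ) + 1 := by positivity
    have := (sq_eq_sq₀ ha hb).mp h2
    apply hab
    apply Fin.ext
    have h3 : ((a : ℕ) : ℝ) = (b : ℕ) := by linarith
    exact_mod_cast h3
  rcases s with a | a <;> rcases s' with b | b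
  · have hab : a ≠ b := fun e => hne (by rw [e])
    have := sqrt_change (one_le_sq (a : ℕ)) (one_le_sq (b : ℕ)) (hsqinj a b hab) ht ht0
    simp only [gt, g0]
    rw [← Complex.ofReal_sub, ← Complex.ofReal_sub, Complex.norm_real, Complex.norm_real,
      Real.norm_eq_abs, Real.norm_eq_abs]
    rw [Real.sqrt_sq (by positivity), Real.sqrt_sq (by positivity)] at this
    exact this
  · simp at h
  · simp at h
  · have hab : a ≠ b := fun e => hne (by rw [e])
    have := sqrt_change (t := -t) (one_le_sq (a : ℕ)) (one_le_sq (b : ℕ)) (hsqinj a b hab)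
      (by rw [abs_neg]; exact ht) (by simpa using ht0)
    simp only [gt, g0]
    rw [← sub_mul, ← sub_mul, ← Complex.ofReal_sub, ← Complex.ofReal_sub, norm_mul, norm_mul,
      Complex.norm_I, Complex.norm_real, Complex.norm_real, mul_one, mul_one,
      Real.norm_eq_abs, Real.norm_eq_abs]
    rw [Real.sqrt_sq (by positivity), Real.sqrt_sq (by positivity)] at this
    simpa [sub_eq_add_neg] using this

/-- What a motion has to satisfy. -/
structure Motion (k m : ℕ) (Z : ℝ → Vtx k m → ℂ) : Prop where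
  cont : ∀ v, ContinuousAt (fun t => Z t v) 0
  zero : ∀ v, Z 0 v = z0 v
  edge : ∀ᶠ t in 𝓝 (0 : ℝ), ∀ u v, (prodGraph k m).Adj u v → ‖Z t u - Z t v‖ = ‖z0 u - z0 v‖

/-- Rotation of factor `i`. -/
noncomputable def rotG {k m : ℕ} (i : Fin k) (θ : ℝ) : Fin k → (Fin m ⊕ Fin m) → ℂ :=
  fun j s => if j = i then Complex.exp (θ * Complex.I) * g0 s else g0 s

/-- Flex of factor `i`. -/
noncomputable def flexG {k m : ℕ} (i : Fin k) (t : ℝ) : Fin k → (Fin m ⊕ Fin m) → ℂ :=
  fun j s => if j = i then gt t s else g0 s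

lemma rot_motion {k m : ℕ} (i : Fin k) :
    Motion k m (fun θ => pos (Lam m) (rotG i θ)) where
  cont := by
    intro v
    apply Continuous.continuousAt
    unfold pos rotG
    apply continuous_finsetSum
    intro j _
    by_cases h : j = i
    · simp only [h, if_true]; fun_prop
    · simp only [h, if_false]; fun_prop
  zero := by
    intro v
    simp only [z0]
    congr 1
    funext j s
    simp [rotG]
  edge := by
    refine Eventually.of_forall fun θ u v h => ?_
    refine edge_preserved (Lam m) (fun _ => g0) (rotG i θ) ?_ h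
    intro j s s' _
    by_cases hj : j = i
    · simp only [rotG, hj, if_true]
      rw [← mul_sub, norm_mul, Complex.norm_exp_ofReal_mul_I, one_mul]
    · simp only [rotG, hj, if_false]

lemma flex_motion {k m : ℕ} (i : Fin k) :
    Motion k m (fun t => pos (Lam m) (flexG i t)) where
  cont := by
    intro v
    apply Continuous.continuousAt
    unfold pos flexG
    apply continuous_finsetSum
    intro j _
    by_cases h : j = i
    · simp only [h, if_true]
      exact continuous_const.mul (gt_cont _)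
    · simp only [h, if_false]; fun_prop
  zero := by
    intro v
    simp only [z0]
    congr 1
    funext j s
    simp [flexG, gt_zero]
  edge := by
    have : ∀ᶠ t : ℝ in 𝓝 0, |t| ≤ 1 := by
      have h : Metric.ball (0 : ℝ) 1 ∈ 𝓝 (0 : ℝ) := Metric.ball_mem_nhds _ one_pos
      filter_upwards [h] with t ht
      rw [Metric.mem_ball, Real.dist_eq, sub_zero] at ht
      exact ht.le
    filter_upwards [this] with t ht u v h
    refine edge_preserved (Lam m) (fun _ => g0) (flexG i t) ?_ h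
    intro j s s' hs
    by_cases hj : j = i
    · simp only [flexG, hj, if_true]
      exact gt_edge ht hs
    · simp only [flexG, hj, if_false]

lemma Lam_pos (m : ℕ) : 0 < Lam m := by unfold Lam; positivity

lemma g0_injective {m : ℕ} : Function.Injective (g0 : Fin m ⊕ Fin m → ℂ) := by
  intro s s' h
  apply eq_of_D
  · have := congrArg Complex.re h
    rw [g0_re, g0_re] at this
    exact_mod_cast this
  · have := congrArg Complex.im h
    rw [g0_im, g0_im] at this
    exact_mod_cast this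

/-- two coordinates differ : the pair can be moved -/
lemma move_two {k m : ℕ} {u v : Vtx k m} {i j : Fin k} (hij : i ≠ j) (hi : u i ≠ v i)
    (hj : u j ≠ v j) :
    ∃ Z : ℝ → Vtx k m → ℂ, Motion k m Z ∧
      ∃ᶠ t in 𝓝 (0 : ℝ), ‖Z t u - Z t v‖ ≠ ‖z0 u - z0 v‖ := by
  classical
  refine ⟨_, rot_motion i, ?_⟩
  set D0 : ℂ := ∑ l ∈ Finset.univ.erase i, (((Lam m) ^ (l : ℕ) : ℝ) : ℂ) * (g0 (u l) - g0 (v l)) with hD0
  set D1 : ℂ := (((Lam m) ^ (i : ℕ) : ℝ) : ℂ) * (g0 (u i) - g0 (v i)) with hD1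
  have h0 : D0 ≠ 0 := partial_ne_zero u v _ ⟨j, by simp [hij.symm], hj⟩
  have h1 : D1 ≠ 0 := by
    rw [hD1]
    apply mul_ne_zero
    · rw [Complex.ofReal_ne_zero]
      exact (pow_pos (Lam_pos m) _).ne'
    · rw [sub_ne_zero]
      exact fun e => hi (g0_injective e)
  have hz : z0 u - z0 v = D0 + D1 := by
    unfold z0
    rw [pos_sub, ← Finset.sum_erase_add _ _ (Finset.mem_univ i)]
  have hrot : ∀ θ : ℝ, pos (Lam m) (rotG i θ) u - pos (Lam m) (rotG i θ) v =
      D0 + Complex.exp (θ * Complex.I) * D1 := by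
    intro θ
    rw [pos_sub, ← Finset.sum_erase_add _ _ (Finset.mem_univ i)]
    congr 1
    · apply Finset.sum_congr rfl
      intro l hl
      have : l ≠ i := Finset.ne_of_mem_erase hl
      simp [rotG, this]
    · simp only [rotG, if_true, hD1]
      ring
  refine (rot_changes h0 h1).mono ?_
  intro θ hθ
  rw [hrot θ, hz]
  exact hθ

/-- the pair differs in one coordinate only and lies on the same side -/
lemma move_one {k m : ℕ} {u v : Vtx k m} {i : Fin k} (hi : u i ≠ v i)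
    (hs : (u i).isLeft = (v i).isLeft) (hj : ∀ j, j ≠ i → u j = v j) :
    ∃ Z : ℝ → Vtx k m → ℂ, Motion k m Z ∧
      ∃ᶠ t in 𝓝 (0 : ℝ), ‖Z t u - Z t v‖ ≠ ‖z0 u - z0 v‖ := by
  refine ⟨_, flex_motion i, ?_⟩
  have hne : ∀ᶠ t : ℝ in 𝓝[≠] 0, |t| < 1 ∧ t ≠ 0 := by
    have h : Metric.ball (0 : ℝ) 1 ∈ 𝓝 (0 : ℝ) := Metric.ball_mem_nhds _ one_pos
    filter_upwards [mem_nhdsWithin_of_mem_nhds h, self_mem_nhdsWithin] with t ht ht0
    rw [Metric.mem_ball, Real.dist_eq, sub_zero] at ht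
    exact ⟨ht, ht0⟩
  have hall : ∀ᶠ t : ℝ in 𝓝[≠] 0,
      ‖pos (Lam m) (flexG i t) u - pos (Lam m) (flexG i t) v‖ ≠ ‖z0 u - z0 v‖ := by
    filter_upwards [hne] with t ht
    unfold z0
    rw [pos_sub_of_eq _ _ hj, pos_sub_of_eq _ _ hj, norm_mul, norm_mul]
    simp only [flexG, if_true]
    intro h
    have hpos : ‖(((Lam m) ^ (i : ℕ) : ℝ) : ℂ)‖ ≠ 0 := by
      rw [norm_ne_zero_iff, Complex.ofReal_ne_zero]
      exact (pow_pos (Lam_pos m) _).ne'
    exact gt_change ht.1 ht.2 hi hs (mul_left_cancel₀ hpos h)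
  exact hall.frequently.filter_mono nhdsWithin_le_nhds

/-- Among three distinct vertices some pair can be moved. -/
lemma move_three {k m : ℕ} {u v w : Vtx k m} (huv : u ≠ v) (huw : u ≠ w) (hvw : v ≠ w) :
    ∃ a ∈ ({u, v, w} : Set (Vtx k m)), ∃ b ∈ ({u, v, w} : Set (Vtx k m)),
      ∃ Z : ℝ → Vtx k m → ℂ, Motion k m Z ∧
        ∃ᶠ t in 𝓝 (0 : ℝ), ‖Z t a - Z t b‖ ≠ ‖z0 a - z0 b‖ := by
  by_contra hcon
  have hc : ∀ a ∈ ({u, v, w} : Set (Vtx k m)), ∀ b ∈ ({u, v, w} : Set (Vtx k m)),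
      ¬ ∃ Z : ℝ → Vtx k m → ℂ, Motion k m Z ∧
        ∃ᶠ t in 𝓝 (0 : ℝ), ‖Z t a - Z t b‖ ≠ ‖z0 a - z0 b‖ :=
    fun a ha b hb h => hcon ⟨a, ha, b, hb, h⟩
  have hu : u ∈ ({u, v, w} : Set (Vtx k m)) := by simp
  have hv : v ∈ ({u, v, w} : Set (Vtx k m)) := by simp
  have hw : w ∈ ({u, v, w} : Set (Vtx k m)) := by simp
  -- every two distinct ones differ in exactly one coordinate
  have one : ∀ a ∈ ({u, v, w} : Set (Vtx k m)), ∀ b ∈ ({u, v, w} : Set (Vtx k m)), a ≠ b →
      ∃ i, a i ≠ b i ∧ ∀ j, j ≠ i → a j = b j := by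
    intro a ha b hb hab
    have : ∃ i, a i ≠ b i := by
      by_contra h'
      push Not at h'
      exact hab (funext h')
    obtain ⟨i, hi⟩ := this
    refine ⟨i, hi, fun j hj => ?_⟩
    by_contra hjne
    exact hc a ha b hb (move_two (Ne.symm hj) hi hjne)
  obtain ⟨i, hi, hi'⟩ := one u hu v hv huv
  obtain ⟨j, hj, hj'⟩ := one u hu w hw huw
  have hij : i = j := by
    by_contra hne
    have h1 : v i ≠ w i := by
      rw [← hj' i hne]; exact hi.symm
    have h2 : v j ≠ w j := by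
      rw [← hi' j (Ne.symm hne)]; exact hj
    exact hc v hv w hw (move_two hne h1 h2)
  subst hij
  have hvwi : v i ≠ w i := by
    intro h
    apply hvw
    funext l
    by_cases hl : l = i
    · rw [hl, h]
    · rw [← hi' l hl, hj' l hl]
  have hvw' : ∀ l, l ≠ i → v l = w l := fun l hl => by rw [← hi' l hl, hj' l hl]
  have h1 : (u i).isLeft ≠ (v i).isLeft := fun h => hc u hu v hv (move_one hi h hi')
  have h2 : (u i).isLeft ≠ (w i).isLeft := fun h => hc u hu w hw (move_one hj h hj')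
  have h3 : (v i).isLeft ≠ (w i).isLeft := fun h => hc v hv w hw (move_one hvwi h hvw')
  revert h1 h2 h3
  cases (u i).isLeft <;> cases (v i).isLeft <;> cases (w i).isLeft <;> simp

end Pool.Agent.Lib.MP_a65cb7_co
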