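import Pool.Agent.Lib.MP_a65cb7_co.Flex
import Pool.Agent.Lib.MP_a65cb7_co.Defs

open Filter Topology

namespace Pool.Agent.Lib.MP_a65cb7_co

/-- The Euclidean plane. -/
abbrev Plane := EuclideanSpace ℝ (Fin 2)

/-- the standard isometry between `ℂ` and the plane -/
noncomputable def iso : ℂ ≃ₗᵢ[ℝ] Plane := Complex.orthonormalBasisOneI.repr

/-- placement of the vertices of an induced subgraph of the product -/
noncomputable def place {ι : Type*} {k m : ℕ} (φ : ι → Vtx k m) : ι → Plane := fun x => iso (z0 (φ x))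

lemma place_injective {ι : Type*} {k m : ℕ} {φ : ι → Vtx k m} (hφ : Function.Injective φ) :
    Function.Injective (place φ) := by
  intro x y h
  exact hφ (z0_injective (iso.injective h))

theorem not_rigid {ι : Type*} [Finite ι] {k m : ℕ} (φ : ι → Vtx k m) (hφ : Function.Injective φ)
    (H : ((prodGraph k m).comap φ).Subgraph) (hH : 3 ≤ H.verts.ncard) :
    ¬ IsRigid H.coe (fun v => place φ v) := by
  rintro ⟨U, hU, hrig⟩
  have h3 : 2 < H.verts.ncard := hH
  rw [Set.two_lt_ncard_iff (Set.toFinite _)] at h3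
  obtain ⟨a, b, c, ha, hb, hc, hab, hac, hbc⟩ := h3
  obtain ⟨u, hu, v, hv, Z, hZ, hfreq⟩ :=
    move_three (k := k) (m := m) (hφ.ne hab) (hφ.ne hac) (hφ.ne hbc)
  have lift : ∀ x ∈ ({φ a, φ b, φ c} : Set (Vtx k m)), ∃ y : H.verts, φ y = x := by
    intro x hx
    simp only [Set.mem_insert_iff, Set.mem_singleton_iff] at hx
    rcases hx with h | h | h
    · exact ⟨⟨a, ha⟩, h.symm⟩
    · exact ⟨⟨b, hb⟩, h.symm⟩
    · exact ⟨⟨c, hc⟩, h.symm⟩
  obtain ⟨u', rfl⟩ := lift u hu
  obtain ⟨v', rfl⟩ := lift v hv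
  set q : ℝ → (H.verts → Plane) := fun t w => iso (Z t (φ w)) with hq
  have hq0 : q 0 = (fun v : H.verts => place φ v) := by
    funext w
    simp [hq, place, hZ.zero]
  have hcont : ContinuousAt q 0 := by
    rw [continuousAt_pi]
    intro w
    exact iso.continuous.continuousAt.comp (hZ.cont (φ w))
  have hmem : ∀ᶠ t in 𝓝 (0 : ℝ), q t ∈ U := by
    apply hcont
    rw [hq0]
    exact hU
  obtain ⟨t, hne, hmem, hedge⟩ := (hfreq.and_eventually (hmem.and hZ.edge)).exists
  have hd : ∀ x y : ℂ, dist (iso x) (iso y) = ‖x - y‖ := by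
    intro x y
    rw [iso.dist_map, dist_eq_norm]
  have hcong := hrig (q t) hmem (by
    intro i j hij
    have hadj : (prodGraph k m).Adj (φ i) (φ j) := H.adj_sub hij
    have := hedge _ _ hadj
    simp only [hq, place, hd]
    exact this.symm)
  have := hcong u' v'
  simp only [hq, place, hd] at this
  exact hne this.symm

/-! ### collinear sets of neighbours -/

lemma iso_collinear {s : Set ℂ} (h : Collinear ℝ (iso '' s)) : Collinear ℝ s := by
  obtain ⟨p0, w, hw⟩ := (collinear_iff_exists_forall_eq_smul_vadd _).mp h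
  refine (collinear_iff_exists_forall_eq_smul_vadd _).mpr ⟨iso.symm p0, iso.symm w, ?_⟩
  intro x hx
  obtain ⟨r, hr⟩ := hw (iso x) ⟨x, hx, rfl⟩
  refine ⟨r, ?_⟩
  apply iso.injective
  simp only [vadd_eq_add] at hr ⊢
  rw [hr, map_add, map_smul, iso.apply_symm_apply, iso.apply_symm_apply]

lemma same_re {s : Set ℂ} (h : Collinear ℝ s) {x y : ℂ} (hx : x ∈ s) (hy : y ∈ s) (hxy : x ≠ y)
    (hre : x.re = y.re) {z : ℂ} (hz : z ∈ s) : z.re = x.re := by
  obtain ⟨p0, w, hw⟩ := (collinear_iff_exists_forall_eq_smul_vadd _).mp h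
  obtain ⟨r1, e1⟩ := hw x hx
  obtain ⟨r2, e2⟩ := hw y hy
  obtain ⟨r3, e3⟩ := hw z hz
  have hr : r1 ≠ r2 := by
    intro h
    apply hxy
    rw [e1, e2, h]
  simp only [vadd_eq_add] at e1 e2 e3
  have hwre : w.re = 0 := by
    rw [e1, e2] at hre
    simp only [Complex.add_re, Complex.real_smul, Complex.re_ofReal_mul] at hre
    have : (r1 - r2) * w.re = 0 := by linarith
    rcases mul_eq_zero.mp this with h | h
    · exact absurd (by linarith) hr
    · exact h
  rw [e1, e3]
  simp [hwre]

lemma same_im {s : Set ℂ} (h : Collinear ℝ s) {x y : ℂ} (hx : x ∈ s) (hy : y ∈ s) (hxy : x ≠ y)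
    (him : x.im = y.im) {z : ℂ} (hz : z ∈ s) : z.im = x.im := by
  obtain ⟨p0, w, hw⟩ := (collinear_iff_exists_forall_eq_smul_vadd _).mp h
  obtain ⟨r1, e1⟩ := hw x hx
  obtain ⟨r2, e2⟩ := hw y hy
  obtain ⟨r3, e3⟩ := hw z hz
  have hr : r1 ≠ r2 := by
    intro h
    apply hxy
    rw [e1, e2, h]
  simp only [vadd_eq_add] at e1 e2 e3
  have hwim : w.im = 0 := by
    rw [e1, e2] at him
    simp only [Complex.add_im, Complex.real_smul, Complex.im_ofReal_mul] at him
    have : (r1 - r2) * w.im = 0 := by linarith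
    rcases mul_eq_zero.mp this with h | h
    · exact absurd (by linarith) hr
    · exact h
  rw [e1, e3]
  simp [hwim]

/-- the neighbours of `v` in direction `i` -/
def Grp {k m : ℕ} (v : Vtx k m) (i : Fin k) : Set (Vtx k m) :=
  {u | (∀ j, j ≠ i → u j = v j) ∧ Opp (u i) (v i)}

lemma grp_re {k m : ℕ} {v u : Vtx k m} {i : Fin k} (hu : u ∈ Grp v i) (hv : (v i).isLeft = true) :
    (z0 u).re = (z0 v).re - (Lam m) ^ (i : ℕ) * reD (v i) := by
  obtain ⟨h1, h2⟩ := hu
  have h3 := congrArg Complex.re (pos_sub_of_eq (Lam m) (fun _ => g0) h1)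
  simp only [Complex.sub_re, Complex.re_ofReal_mul, g0_re] at h3
  have h4 : reD (u i) = 0 := by
    unfold Opp at h2
    rcases hui : u i with a | b
    · rw [hui, hv] at h2; simp at h2
    · simp [reD]
  rw [h4] at h3
  unfold z0
  push_cast at h3
  linarith

lemma grp_im {k m : ℕ} {v u : Vtx k m} {i : Fin k} (hu : u ∈ Grp v i) (hv : (v i).isLeft = false) :
    (z0 u).im = (z0 v).im - (Lam m) ^ (i : ℕ) * imD (v i) := by
  obtain ⟨h1, h2⟩ := hu
  have h3 := congrArg Complex.im (pos_sub_of_eq (Lam m) (fun _ => g0) h1)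
  simp only [Complex.sub_im, Complex.im_ofReal_mul, g0_im] at h3
  have h4 : imD (u i) = 0 := by
    unfold Opp at h2
    rcases hui : u i with a | b
    · simp [imD]
    · rw [hui, hv] at h2; simp at h2
  rw [h4] at h3
  unfold z0
  push_cast at h3
  linarith

lemma two_digits {k m : ℕ} {i j : Fin k} (hij : i ≠ j) {x y : ℤ} (hx : 0 < x) (hx' : x ≤ m)
    (hy : 0 ≤ y) (hy' : y ≤ m) :
    (Lam m) ^ (i : ℕ) * x ≠ (Lam m) ^ (j : ℕ) * y := by
  classical
  intro h
  have hsum : ∑ l : Fin k, ((m + 1 : ℤ)) ^ (l : ℕ) * (if l = i then x else if l = j then -y else 0) = 0 := by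
    have h1 : ∀ l : Fin k, ((m + 1 : ℤ)) ^ (l : ℕ) * (if l = i then x else if l = j then -y else 0) =
        (if l = i then ((m + 1 : ℤ)) ^ (i : ℕ) * x else 0) +
          (if l = j then - (((m + 1 : ℤ)) ^ (j : ℕ) * y) else 0) := by
      intro l
      by_cases hl : l = i
      · subst hl
        simp [hij]
      · by_cases hl' : l = j
        · subst hl'
          simp [hl]
        · simp [hl, hl']
    rw [Finset.sum_congr rfl (fun l _ => h1 l), Finset.sum_add_distrib]
    simp only [Finset.sum_ite_eq', Finset.mem_univ, if_true]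
    have h2 : (((m + 1 : ℤ)) ^ (i : ℕ) * x : ℤ) = ((m + 1 : ℤ)) ^ (j : ℕ) * y := by
      have : ((((m + 1 : ℤ)) ^ (i : ℕ) * x : ℤ) : ℝ) = ((((m + 1 : ℤ)) ^ (j : ℕ) * y : ℤ) : ℝ) := by
        push_cast
        unfold Lam at h
        exact h
      exact_mod_cast this
    rw [h2]; ring
  have := digits_zero m k _ (by
    intro l
    by_cases hl : l = i
    · simp only [hl, if_true]; rw [abs_of_pos hx]; exact hx'
    · by_cases hl' : l = j
      · rw [if_neg hl, if_pos hl', abs_neg, abs_of_nonneg hy]; exact hy'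
      · simp [hl, hl']) hsum i
  simp only [if_true] at this
  omega

/-- A collinear set of neighbours meets at most one direction in two or more points. -/
lemma no_two_groups {k m : ℕ} {v : Vtx k m} {S : Set (Vtx k m)} (hS : Collinear ℝ (z0 '' S))
    {i j : Fin k} (hij : i ≠ j) {u u' w w' : Vtx k m} (hu : u ∈ S) (hu' : u' ∈ S) (hw : w ∈ S)
    (hw' : w' ∈ S) (hui : u ∈ Grp v i) (hui' : u' ∈ Grp v i) (hwj : w ∈ Grp v j)
    (hwj' : w' ∈ Grp v j) (huu : u ≠ u') (hww : w ≠ w') : False := by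
  have zu : z0 u ∈ z0 '' S := ⟨u, hu, rfl⟩
  have zu' : z0 u' ∈ z0 '' S := ⟨u', hu', rfl⟩
  have zw : z0 w ∈ z0 '' S := ⟨w, hw, rfl⟩
  have zw' : z0 w' ∈ z0 '' S := ⟨w', hw', rfl⟩
  have nu : z0 u ≠ z0 u' := z0_injective.ne huu
  have nw : z0 w ≠ z0 w' := z0_injective.ne hww
  have bre : ∀ s : Fin m ⊕ Fin m, s.isLeft = true → 0 < reD s ∧ reD s ≤ m := by
    intro s hs
    rcases s with a | a
    · have := a.isLt
      simp only [reD]; omega
    · simp at hs
  have bim : ∀ s : Fin m ⊕ Fin m, s.isLeft = false → 0 < imD s ∧ imD s ≤ m := by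
    intro s hs
    rcases s with a | a
    · simp at hs
    · have := a.isLt
      simp only [imD]; omega
  rcases hi : (v i).isLeft with _ | _ <;> rcases hj : (v j).isLeft with _ | _
  · have e1 := same_im hS zu zu' nu (by rw [grp_im hui hi, grp_im hui' hi]) zw
    rw [grp_im hui hi, grp_im hwj hj] at e1
    exact two_digits (m := m) hij (bim _ hi).1 (bim _ hi).2 (bim _ hj).1.le (bim _ hj).2 (by linarith)
  · have e1 := same_re hS zw zw' nw (by rw [grp_re hwj hj, grp_re hwj' hj]) zu
    have e2 := same_re hS zw zw' nw (by rw [grp_re hwj hj, grp_re hwj' hj]) zu'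
    exact nu (Complex.ext (by rw [e1, e2]) (by rw [grp_im hui hi, grp_im hui' hi]))
  · have e1 := same_im hS zw zw' nw (by rw [grp_im hwj hj, grp_im hwj' hj]) zu
    have e2 := same_im hS zw zw' nw (by rw [grp_im hwj hj, grp_im hwj' hj]) zu'
    exact nu (Complex.ext (by rw [grp_re hui hi, grp_re hui' hi]) (by rw [e1, e2]))
  · have e1 := same_re hS zu zu' nu (by rw [grp_re hui hi, grp_re hui' hi]) zw
    rw [grp_re hui hi, grp_re hwj hj] at e1
    exact two_digits (m := m) hij (bre _ hi).1 (bre _ hi).2 (bre _ hj).1.le (bre _ hj).2 (by linarith)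

/-- the opposite side -/
def oppSide {m : ℕ} (s : Fin m ⊕ Fin m) (b : Fin m) : Fin m ⊕ Fin m :=
  if s.isLeft then .inr b else .inl b

lemma oppSide_opp {m : ℕ} (s : Fin m ⊕ Fin m) (b : Fin m) : Opp (oppSide s b) s := by
  unfold Opp oppSide
  rcases s with a | a <;> simp

lemma exists_oppSide {m : ℕ} {s s' : Fin m ⊕ Fin m} (h : Opp s' s) : ∃ b, s' = oppSide s b := by
  unfold Opp at h
  unfold oppSide
  rcases s with a | a <;> rcases s' with b | b <;> simp_all

lemma oppSide_inj {m : ℕ} {s : Fin m ⊕ Fin m} {b b' : Fin m} (h : oppSide s b = oppSide s b') : b = b' := by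
  unfold oppSide at h
  rcases s with a | a <;> simp_all

lemma grp_eq_image {k m : ℕ} (v : Vtx k m) (i : Fin k) :
    Grp v i = Set.range (fun b : Fin m => Function.update v i (oppSide (v i) b)) := by
  ext u
  constructor
  · rintro ⟨h1, h2⟩
    obtain ⟨b, hb⟩ := exists_oppSide h2
    refine ⟨b, ?_⟩
    funext j
    by_cases hj : j = i
    · subst hj; simp [hb]
    · simp [hj, h1 j hj]
  · rintro ⟨b, rfl⟩
    refine ⟨fun j hj => by simp [hj], ?_⟩
    simp only [Function.update_self]
    exact oppSide_opp _ _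

lemma grp_ncard_le {k m : ℕ} (v : Vtx k m) (i : Fin k) : (Grp v i).ncard ≤ m := by
  rw [grp_eq_image]
  have := Set.ncard_image_le (f := fun b : Fin m => Function.update v i (oppSide (v i) b))
    (s := Set.univ) (Set.toFinite _)
  rw [Set.image_univ, Set.ncard_univ, Nat.card_eq_fintype_card, Fintype.card_fin] at this
  exact this

lemma neighborSet_eq {k m : ℕ} (v : Vtx k m) :
    (prodGraph k m).neighborSet v = ⋃ i, Grp v i := by
  ext u
  simp only [SimpleGraph.mem_neighborSet, Set.mem_iUnion, Grp, Set.mem_ofPred_eq]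
  constructor
  · rintro ⟨i, h1, h2⟩
    exact ⟨i, fun j hj => (h1 j hj).symm, h2.symm⟩
  · rintro ⟨i, h1, h2⟩
    exact ⟨i, fun j hj => (h1 j hj).symm, h2.symm⟩

lemma neighbor_ncard_ge {k m : ℕ} (v : Vtx k m) : k * m ≤ ((prodGraph k m).neighborSet v).ncard := by
  classical
  have hinj : Function.Injective (fun x : Fin k × Fin m =>
      Function.update v x.1 (oppSide (v x.1) x.2)) := by
    rintro ⟨i, b⟩ ⟨i', b'⟩ h
    simp only at h
    have hii : i = i' := by
      by_contra hne
      have h1 := congrFun h i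
      rw [Function.update_self, Function.update_of_ne hne] at h1
      have h2 := oppSide_opp (v i) b
      rw [h1] at h2
      exact h2 rfl
    subst hii
    have h1 := congrFun h i
    rw [Function.update_self, Function.update_self] at h1
    rw [oppSide_inj h1]
  have hsub : Set.range (fun x : Fin k × Fin m => Function.update v x.1 (oppSide (v x.1) x.2)) ⊆
      (prodGraph k m).neighborSet v := by
    rintro u ⟨⟨i, b⟩, rfl⟩
    rw [neighborSet_eq, Set.mem_iUnion]
    refine ⟨i, ?_⟩
    rw [grp_eq_image]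
    exact ⟨b, rfl⟩
  calc k * m = Nat.card (Fin k × Fin m) := by simp
    _ = (Set.range (fun x : Fin k × Fin m => Function.update v x.1 (oppSide (v x.1) x.2))).ncard := by
        rw [← Set.image_univ, Set.ncard_image_of_injective _ hinj, Set.ncard_univ]
    _ ≤ _ := Set.ncard_le_ncard hsub (Set.toFinite _)

/-- A collinear set of neighbours has at most `m + k` elements. -/
lemma collinear_ncard_le {k m : ℕ} {v : Vtx k m} {S : Set (Vtx k m)}
    (hSv : S ⊆ (prodGraph k m).neighborSet v) (hS : Collinear ℝ (z0 '' S)) : S.ncard ≤ m + k := by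
  classical
  have hcov : S = ⋃ i, (S ∩ Grp v i) := by
    rw [← Set.inter_iUnion, ← neighborSet_eq]
    exact (Set.inter_eq_left.mpr hSv).symm
  have hsum : S.ncard ≤ ∑ i, (S ∩ Grp v i).ncard := by
    conv_lhs => rw [hcov]
    exact Set.ncard_iUnion_le_of_fintype _
  by_cases hbig : ∃ i, 2 ≤ (S ∩ Grp v i).ncard
  · obtain ⟨i, hi⟩ := hbig
    obtain ⟨u, u', hu, hu', huu⟩ := (Set.one_lt_ncard_iff (Set.toFinite _)).mp hi
    have hsmall : ∀ j, j ≠ i → (S ∩ Grp v j).ncard ≤ 1 := by
      intro j hj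
      by_contra hcon
      push Not at hcon
      obtain ⟨w, w', hw, hw', hww⟩ := (Set.one_lt_ncard_iff (Set.toFinite _)).mp hcon
      exact no_two_groups hS (Ne.symm hj) hu.1 hu'.1 hw.1 hw'.1 hu.2 hu'.2 hw.2 hw'.2 huu hww
    calc S.ncard ≤ ∑ j, (S ∩ Grp v j).ncard := hsum
      _ ≤ ∑ j, ((if j = i then m else 0) + 1) := by
          apply Finset.sum_le_sum
          intro j _
          by_cases hj : j = i
          · subst hj
            simp only [if_true]
            have := Set.ncard_le_ncard (Set.inter_subset_right : S ∩ Grp v j ⊆ Grp v j) (Set.toFinite _)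
            have := grp_ncard_le v j
            omega
          · simp only [hj, if_false, zero_add]
            exact hsmall j hj
      _ = m + k := by
          rw [Finset.sum_add_distrib]
          simp
  · push Not at hbig
    calc S.ncard ≤ ∑ j, (S ∩ Grp v j).ncard := hsum
      _ ≤ ∑ _j : Fin k, 1 := by
          apply Finset.sum_le_sum
          intro j _
          have := hbig j
          omega
      _ ≤ m + k := by simp

end Pool.Agent.Lib.MP_a65cb7_co
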