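import Pool.Agent.Lib.MP_a65cb7_co.Main

open Filter Topology

namespace Pool.Agent.Lib.MP_a65cb7_co

lemma edges_ge {n D : ℕ} (G : SimpleGraph (Fin n)) (h : ∀ v, D ≤ (G.neighborSet v).ncard) :
    n * D ≤ 2 * G.edgeSet.ncard := by
  classical
  have h1 := G.sum_degrees_eq_twice_card_edges
  have h2 : G.edgeSet.ncard = G.edgeFinset.card := by
    rw [Set.ncard_eq_toFinset_card']
    rfl
  rw [h2, ← h1]
  have h3 : ∀ v, D ≤ G.degree v := by
    intro v
    have := h v
    rwa [Set.ncard_eq_toFinset_card'] at this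
  calc n * D = ∑ _v : Fin n, D := by simp
    _ ≤ ∑ v, G.degree v := Finset.sum_le_sum (fun v _ => h3 v)

lemma place_image {n k m : ℕ} (e : Fin n → Vtx k m) (S : Set (Fin n)) :
    place e '' S = iso '' (z0 '' (e '' S)) := by
  rw [Set.image_image, Set.image_image]
  rfl

lemma comap_neighbor_ge {n k m : ℕ} (e : Fin n ≃ Vtx k m) (v : Fin n) :
    k * m ≤ (((prodGraph k m).comap e).neighborSet v).ncard := by
  have h1 : ((prodGraph k m).comap e).neighborSet v = e ⁻¹' ((prodGraph k m).neighborSet (e v)) := by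
    ext u; simp
  rw [h1, ← Set.ncard_image_of_injective _ e.injective, Set.image_preimage_eq _ e.surjective]
  exact neighbor_ncard_ge (e v)

lemma comap_collinear_le {n k m : ℕ} (e : Fin n ≃ Vtx k m) (v : Fin n) (S : Set (Fin n))
    (hS : S ⊆ ((prodGraph k m).comap e).neighborSet v) (hc : Collinear ℝ (place e '' S)) :
    S.ncard ≤ m + k := by
  rw [place_image] at hc
  have h1 := iso_collinear hc
  rw [← Set.ncard_image_of_injective S e.injective]
  refine collinear_ncard_le (v := e v) ?_ h1
  rintro _ ⟨x, hx, rfl⟩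
  have := hS hx
  simpa using this

end Pool.Agent.Lib.MP_a65cb7_co
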