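import Pool.Agent.Lib.MP_a65cb7_co.Transfer

open Polynomial Filter Topology

namespace Pool.Agent.Lib.MP_a65cb7_co.UD

/-- the sign of a boolean -/
def sg (b : Bool) : ℤ := if b then 1 else -1

/-- the root of the factor number `k` -/
def rt {K : ℕ} (ε : Fin K → Bool) (k : Fin K) : ℤ := sg (ε k) * ((k : ℕ) + 1)

/-- the product of `X - ε_k (k+1)` -/
noncomputable def Nn {K : ℕ} (ε : Fin K → Bool) : ℤ[X] := ∏ k : Fin K, (X - C (rt ε k))

variable {K : ℕ}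

lemma rt_natAbs (ε : Fin K → Bool) (k : Fin K) : (rt ε k).natAbs = (k : ℕ) + 1 := by
  unfold rt sg
  split <;> omega

lemma rt_inj (ε : Fin K → Bool) : Function.Injective (rt ε) := by
  intro i j h
  have h1 := congrArg Int.natAbs h
  rw [rt_natAbs, rt_natAbs] at h1
  exact Fin.ext (by omega)

lemma Nn_monic (ε : Fin K → Bool) : (Nn ε).Monic :=
  monic_prod_of_monic _ _ fun _ _ => monic_X_sub_C _

lemma Nn_natDegree (ε : Fin K → Bool) : (Nn ε).natDegree = K := by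
  unfold Nn
  rw [natDegree_prod_of_monic _ _ fun k _ => monic_X_sub_C _]
  simp only [natDegree_X_sub_C]
  simp

lemma Nn_ne_zero (ε : Fin K → Bool) : Nn ε ≠ 0 := (Nn_monic ε).ne_zero

lemma Nn_coeff (ε : Fin K → Bool) : (Nn ε).coeff K = 1 := by
  have h := (Nn_monic ε).coeff_natDegree
  rwa [Nn_natDegree] at h

lemma Nn_eval (ε : Fin K → Bool) (x : ℤ) : (Nn ε).eval x = ∏ k : Fin K, (x - rt ε k) := by
  unfold Nn
  rw [eval_prod]
  simp

lemma Nn_eval_rt (ε : Fin K → Bool) (k : Fin K) : (Nn ε).eval (rt ε k) = 0 := by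
  rw [Nn_eval]
  exact Finset.prod_eq_zero (Finset.mem_univ k) (sub_self _)

lemma Nn_eval_neg_rt (ε : Fin K → Bool) (k : Fin K) : (Nn ε).eval (-rt ε k) ≠ 0 := by
  rw [Nn_eval]
  refine Finset.prod_ne_zero_iff.mpr fun j _ h => ?_
  have h0 : -rt ε k = rt ε j := by linarith
  have h1 := congrArg Int.natAbs h0
  rw [Int.natAbs_neg, rt_natAbs, rt_natAbs] at h1
  have h2 : k = j := Fin.ext (by omega)
  subst h2
  have h3 := rt_natAbs ε k
  omega

lemma Nn_inj : Function.Injective (Nn : (Fin K → Bool) → ℤ[X]) := by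
  intro ε δ h
  funext k
  have h1 := Nn_eval_rt ε k
  rw [h, Nn_eval, Finset.prod_eq_zero_iff] at h1
  obtain ⟨j, _, hj⟩ := h1
  have h0 : rt ε k = rt δ j := by linarith
  have h2 := congrArg Int.natAbs h0
  rw [rt_natAbs, rt_natAbs] at h2
  have h3 : k = j := Fin.ext (by omega)
  subst h3
  unfold rt sg at h0
  cases hε : ε k <;> cases hδ : δ k <;> simp_all <;> omega

/-- the value at `i τ` -/
noncomputable def ev (τ : ℝ) (F : ℤ[X]) : ℂ := aeval ((τ : ℂ) * Complex.I) F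

lemma ev_sub (τ : ℝ) (F G : ℤ[X]) : ev τ (F - G) = ev τ F - ev τ G := by simp [ev]

lemma ev_mul (τ : ℝ) (F G : ℤ[X]) : ev τ (F * G) = ev τ F * ev τ G := by simp [ev]

/-- the common length -/
noncomputable def wd (K : ℕ) (τ : ℝ) : ℝ := ∏ k : Fin K, Real.sqrt (τ ^ 2 + ((k : ℕ) + 1 : ℝ) ^ 2)

lemma wd_pos (K : ℕ) (τ : ℝ) : 0 < wd K τ := by
  unfold wd
  refine Finset.prod_pos fun k _ => Real.sqrt_pos.mpr ?_
  positivity

lemma wd_cont (K : ℕ) : Continuous (wd K) := by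
  unfold wd
  fun_prop

lemma ev_cont (F : ℤ[X]) : Continuous fun τ => ev τ F := by
  unfold ev
  simp only [aeval_def]
  have : Continuous fun x : ℂ => eval₂ (algebraMap ℤ ℂ) x F :=
    Polynomial.continuous_eval₂ F (algebraMap ℤ ℂ)
  exact this.comp (by fun_prop)

lemma norm_ev_Nn (ε : Fin K → Bool) (τ : ℝ) : ‖ev τ (Nn ε)‖ = wd K τ := by
  unfold ev Nn wd
  rw [map_prod, norm_prod]
  refine Finset.prod_congr rfl fun k _ => ?_
  have h1 : (aeval ((τ : ℂ) * Complex.I)) (X - C (rt ε k)) = (τ : ℂ) * Complex.I - (rt ε k : ℂ) := by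
    simp
  have h2 : ((rt ε k : ℝ)) ^ 2 = (((k : ℕ) : ℝ) + 1) ^ 2 := by
    have h3 : (rt ε k) ^ 2 = (((k : ℕ) : ℤ) + 1) ^ 2 := by
      rw [← Int.natAbs_sq, rt_natAbs]
      push_cast
      ring
    exact_mod_cast h3
  rw [h1, Complex.norm_def, Complex.normSq_apply]
  congr 1
  simp only [Complex.sub_re, Complex.sub_im, Complex.mul_re, Complex.mul_im, Complex.ofReal_re,
    Complex.ofReal_im, Complex.I_re, Complex.I_im, Complex.intCast_re, Complex.intCast_im]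
  rw [← h2]
  ring

/-- reflection -/
noncomputable def nf (F : ℤ[X]) : ℂ[X] := (F.map (Int.castRingHom ℂ)).comp (-X)

/-- the polynomial `F(y) F(-y)` -/
noncomputable def sq (F : ℤ[X]) : ℂ[X] := F.map (Int.castRingHom ℂ) * nf F

lemma sq_eval (F : ℤ[X]) (τ : ℝ) : (sq F).eval ((τ : ℂ) * Complex.I) = ((‖ev τ F‖ ^ 2 : ℝ) : ℂ) := by
  have h1 : (F.map (Int.castRingHom ℂ)).eval ((τ : ℂ) * Complex.I) = ev τ F := by
    rw [eval_map, ev, aeval_def]
    rfl
  have h2 : (nf F).eval ((τ : ℂ) * Complex.I) = (starRingEnd ℂ) (ev τ F) := by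
    rw [nf, eval_comp, ev, aeval_def, hom_eval₂, eval_map]
    have h3 : (starRingEnd ℂ).comp (algebraMap ℤ ℂ) = Int.castRingHom ℂ := RingHom.ext_int _ _
    rw [h3]
    congr 1
    simp
  rw [sq, eval_mul, h1, h2, Complex.mul_conj, Complex.normSq_eq_norm_sq]

lemma sq_eval_int (F : ℤ[X]) (x : ℤ) : (sq F).eval (x : ℂ) = ((F.eval x * F.eval (-x) : ℤ) : ℂ) := by
  have h1 : (F.map (Int.castRingHom ℂ)).eval (x : ℂ) = ((F.eval x : ℤ) : ℂ) := by
    rw [eval_map]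
    have := hom_eval₂ F (RingHom.id ℤ) (Int.castRingHom ℂ) x
    simpa using this.symm
  have h2 : (nf F).eval (x : ℂ) = ((F.eval (-x) : ℤ) : ℂ) := by
    rw [nf, eval_comp, eval_map]
    have := hom_eval₂ F (RingHom.id ℤ) (Int.castRingHom ℂ) (-x)
    simpa using this.symm
  rw [sq, eval_mul, h1, h2]
  push_cast
  ring

lemma infinite_nhds (τ0 : ℝ) (P : ℝ → Prop) (h : ∀ᶠ τ in 𝓝 τ0, P τ) :
    {x : ℂ | ∃ τ : ℝ, P τ ∧ x = (τ : ℂ) * Complex.I}.Infinite := by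
  obtain ⟨r, hr, hb⟩ := Metric.eventually_nhds_iff.mp h
  have h1 : (Set.Ioo τ0 (τ0 + r)).Infinite := Set.Ioo_infinite (by linarith)
  have h2 : Set.InjOn (fun τ : ℝ => (τ : ℂ) * Complex.I) (Set.Ioo τ0 (τ0 + r)) := by
    intro a _ b _ hab
    have := mul_right_cancel₀ Complex.I_ne_zero hab
    exact_mod_cast this
  refine (h1.image h2).mono ?_
  rintro _ ⟨τ, hτ, rfl⟩
  refine ⟨τ, hb ?_, rfl⟩
  rw [Real.dist_eq, abs_of_pos (by linarith [hτ.1])]
  linarith [hτ.2]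

lemma sq_eq (F : ℤ[X]) (ε : Fin K → Bool) (τ0 c : ℝ)
    (h : ∀ᶠ τ in 𝓝 τ0, ‖ev τ F‖ = c * wd K τ) : sq F = C (((c ^ 2 : ℝ) : ℂ)) * sq (Nn ε) := by
  rw [← sub_eq_zero]
  refine eq_zero_of_infinite_isRoot _ ((infinite_nhds τ0 _ h).mono ?_)
  rintro _ ⟨τ, hτ, rfl⟩
  show IsRoot _ _
  rw [IsRoot, eval_sub, eval_mul, eval_C, sq_eval, sq_eval, norm_ev_Nn, hτ]
  push_cast
  ring

/-- a polynomial at constant distance from both ends of an edge -/
theorem line (ε : Fin K → Bool) (hK : 1 ≤ K) (a : ℤ[X]) (ha : a.natDegree ≤ K) (τ0 c1 c2 : ℝ)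
    (h1 : ∀ᶠ τ in 𝓝 τ0, ‖ev τ a‖ = c1 * wd K τ)
    (h2 : ∀ᶠ τ in 𝓝 τ0, ‖ev τ (a - Nn ε)‖ = c2 * wd K τ) : ∃ l : ℤ, a = C l * Nn ε := by
  have e1 := sq_eq a ε τ0 c1 h1
  have e2 := sq_eq (a - Nn ε) ε τ0 c2 h2
  have key : ∀ k, a.eval (rt ε k) = 0 := by
    intro k
    have f0 : (sq (Nn ε)).eval ((rt ε k : ℤ) : ℂ) = 0 := by
      rw [sq_eval_int, Nn_eval_rt]
      simp
    have f1 : a.eval (rt ε k) * a.eval (-rt ε k) = 0 := by
      have := congrArg (eval ((rt ε k : ℤ) : ℂ)) e1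
      rw [eval_mul, f0, mul_zero, sq_eval_int] at this
      exact_mod_cast this
    have f2 : (a - Nn ε).eval (rt ε k) * (a - Nn ε).eval (-rt ε k) = 0 := by
      have := congrArg (eval ((rt ε k : ℤ) : ℂ)) e2
      rw [eval_mul, f0, mul_zero, sq_eval_int] at this
      exact_mod_cast this
    rw [eval_sub, eval_sub, Nn_eval_rt, sub_zero, mul_sub, f1, zero_sub, neg_eq_zero] at f2
    exact (mul_eq_zero.mp f2).resolve_right (Nn_eval_neg_rt ε k)
  refine ⟨a.coeff K, ?_⟩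
  rw [← sub_eq_zero]
  refine eq_zero_of_natDegree_lt_card_of_eval_eq_zero _ (rt_inj ε) (fun k => ?_) ?_
  · rw [eval_sub, eval_mul, key, Nn_eval_rt]
    simp
  · rw [Fintype.card_fin]
    have : (a - C (a.coeff K) * Nn ε).natDegree ≤ K - 1 := by
      rw [natDegree_le_iff_coeff_eq_zero]
      intro j hj
      rcases Nat.lt_or_ge K j with h | h
      · have q1 : a.coeff j = 0 := coeff_eq_zero_of_natDegree_lt (lt_of_le_of_lt ha h)
        have q2 : (Nn ε).coeff j = 0 := coeff_eq_zero_of_natDegree_lt (by rw [Nn_natDegree]; exact h)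
        rw [coeff_sub, coeff_C_mul, q1, q2]
        simp
      · have : j = K := by omega
        rw [this, coeff_sub, coeff_C_mul, Nn_coeff]
        ring
    omega

end Pool.Agent.Lib.MP_a65cb7_co.UD
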