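import Pool.Agent.Lib.MP_a65cb7_co.UnitA

open Polynomial Filter Topology

namespace Pool.Agent.Lib.MP_a65cb7_co.UD

/-- the graph on polynomials: the difference is a product `Nn ε` -/
def gr (K : ℕ) {ι : Type*} (F : ι → ℤ[X]) : SimpleGraph ι where
  Adj x y := ∃ ε : Fin K → Bool, F x - F y = Nn ε ∨ F y - F x = Nn ε
  symm := ⟨by
    rintro x y ⟨ε, h⟩
    exact ⟨ε, h.symm⟩⟩
  loopless := ⟨by
    rintro x ⟨ε, h⟩
    rw [sub_self, or_self] at h
    exact Nn_ne_zero ε h.symm⟩

/-- the point of a polynomial -/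
noncomputable def pt (K : ℕ) (τ : ℝ) (F : ℤ[X]) : ℂ := ev τ F / (wd K τ : ℂ)

/-- the placement -/
noncomputable def pl (K : ℕ) (τ : ℝ) {ι : Type*} (F : ι → ℤ[X]) : ι → Plane := fun x => iso (pt K τ (F x))

lemma dist_iso (x y : ℂ) : dist (iso x) (iso y) = ‖x - y‖ := by
  rw [iso.dist_map, dist_eq_norm]

lemma pt_sub (K : ℕ) (τ : ℝ) (F G : ℤ[X]) : pt K τ F - pt K τ G = pt K τ (F - G) := by
  unfold pt
  rw [ev_sub, sub_div]

lemma norm_pt (K : ℕ) (τ : ℝ) (F : ℤ[X]) : ‖pt K τ F‖ = ‖ev τ F‖ / wd K τ := by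
  unfold pt
  rw [norm_div, Complex.norm_real, Real.norm_eq_abs, abs_of_pos (wd_pos K τ)]

lemma norm_pt_Nn {K : ℕ} (τ : ℝ) (ε : Fin K → Bool) : ‖pt K τ (Nn ε)‖ = 1 := by
  rw [norm_pt, norm_ev_Nn, div_self (wd_pos K τ).ne']

lemma pt_C_mul (K : ℕ) (τ : ℝ) (l : ℤ) (F : ℤ[X]) : pt K τ (C l * F) = (l : ℂ) * pt K τ F := by
  unfold pt
  rw [ev_mul, ev, aeval_C]
  simp [mul_div_assoc]

lemma pl_cont (K : ℕ) {ι : Type*} (F : ι → ℤ[X]) (x : ι) : Continuous fun τ => pl K τ F x := by
  unfold pl pt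
  refine iso.continuous.comp ((ev_cont _).div ?_ ?_)
  · exact Complex.continuous_ofReal.comp (wd_cont K)
  · intro τ
    exact_mod_cast (wd_pos K τ).ne'

lemma adj_dist {K : ℕ} {ι : Type*} (F : ι → ℤ[X]) (τ : ℝ) {x y : ι} (h : (gr K F).Adj x y) :
    dist (pl K τ F x) (pl K τ F y) = 1 := by
  obtain ⟨ε, h | h⟩ := h
  · rw [pl, pl, dist_iso, pt_sub, h, norm_pt_Nn]
  · rw [dist_comm, pl, pl, dist_iso, pt_sub, h, norm_pt_Nn]

/-- two vertices on a line of direction `Nn ε` are adjacent only if they are consecutive -/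
lemma adj_line {K : ℕ} (ε : Fin K → Bool) {ι : Type*} (F : ι → ℤ[X]) {x y : ι} (l : ℤ)
    (h : (gr K F).Adj x y) (hl : F x - F y = C l * Nn ε) : l = 1 ∨ l = -1 := by
  obtain ⟨δ, h | h⟩ := h
  · left
    rw [h] at hl
    have := congrArg (fun p => p.coeff K) hl
    simp only [coeff_C_mul, Nn_coeff] at this
    linarith
  · right
    have h' : F x - F y = -Nn δ := by rw [← h]; ring
    rw [h'] at hl
    have := congrArg (fun p => p.coeff K) hl
    simp only [coeff_C_mul, coeff_neg, Nn_coeff] at this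
    linarith

/-- no subgraph with three vertices is rigid -/
theorem not_rigid {K : ℕ} (hK : 1 ≤ K) {ι : Type*} [Finite ι] (F : ι → ℤ[X])
    (hdeg : ∀ x, (F x).natDegree ≤ K) (τ0 : ℝ) (hinj : Function.Injective (pl K τ0 F))
    (H : (gr K F).Subgraph) (hH : 3 ≤ H.verts.ncard) :
    ¬ IsRigid H.coe (fun v : H.verts => pl K τ0 F v) := by
  classical
  rintro ⟨U, hU, hrig⟩
  have h3 : 2 < H.verts.ncard := hH
  rw [Set.two_lt_ncard_iff (Set.toFinite _)] at h3
  obtain ⟨a, b, c, ha, hb, hc, hab, hac, hbc⟩ := h3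
  by_cases hE : ∃ x y, H.Adj x y
  swap
  · -- no edges: scale
    push Not at hE
    have hcont : ContinuousAt (fun (t : ℝ) (v : H.verts) => (1 + t) • pl K τ0 F v) 0 := by
      fun_prop
    have hmem : ∀ᶠ t in 𝓝 (0 : ℝ), (fun v : H.verts => (1 + t) • pl K τ0 F v) ∈ U := by
      apply hcont
      simpa using hU
    have hmem2 : ∀ᶠ t in 𝓝[≠] (0 : ℝ), (fun v : H.verts => (1 + t) • pl K τ0 F v) ∈ U :=
      hmem.filter_mono nhdsWithin_le_nhds
    have hne : ∀ᶠ t in 𝓝[≠] (0 : ℝ), t ≠ 0 := self_mem_nhdsWithin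
    have hpos : ∀ᶠ t in 𝓝[≠] (0 : ℝ), -1 < t :=
      Filter.Eventually.filter_mono nhdsWithin_le_nhds (Ioi_mem_nhds (by norm_num : (-1 : ℝ) < 0))
    obtain ⟨t, ht1, ht2, ht3⟩ := (hmem2.and (hne.and hpos)).exists
    have := hrig _ ht1 (fun i j hij => absurd hij (by simpa using hE i j)) ⟨a, ha⟩ ⟨b, hb⟩
    rw [dist_smul₀, Real.norm_eq_abs, abs_of_pos (by linarith)] at this
    have hd : 0 < dist (pl K τ0 F a) (pl K τ0 F b) := dist_pos.mpr (hinj.ne hab)
    have h0 : t * dist (pl K τ0 F a) (pl K τ0 F b) = 0 := by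
      have := this
      simp only at this
      linarith
    rcases mul_eq_zero.mp h0 with h | h
    · exact ht2 h
    · exact hd.ne' h
  -- an edge x y with F y - F x = Nn ε
  obtain ⟨x, y, ε, hx, hy, hxy⟩ : ∃ x y, ∃ ε : Fin K → Bool, x ∈ H.verts ∧ y ∈ H.verts ∧
      F y - F x = Nn ε := by
    obtain ⟨x, y, hxy⟩ := hE
    obtain ⟨ε, h | h⟩ := H.adj_sub hxy
    · exact ⟨y, x, ε, H.edge_vert hxy.symm, H.edge_vert hxy, h⟩
    · exact ⟨x, y, ε, H.edge_vert hxy, H.edge_vert hxy.symm, h⟩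
  -- constant distances
  have hconst : ∀ᶠ τ in 𝓝 τ0, ∀ i j : H.verts,
      dist (pl K τ0 F i) (pl K τ0 F j) = dist (pl K τ F i) (pl K τ F j) := by
    have hcont : ContinuousAt (fun (τ : ℝ) (v : H.verts) => pl K τ F v) τ0 := by
      rw [continuousAt_pi]
      intro v
      exact (pl_cont K F v).continuousAt
    have hmem : ∀ᶠ τ in 𝓝 τ0, (fun v : H.verts => pl K τ F v) ∈ U := hcont hU
    filter_upwards [hmem] with τ hτ
    intro i j
    refine hrig _ hτ (fun i j hij => ?_) i j
    have hadj : (gr K F).Adj (i : ι) (j : ι) := H.adj_sub (by simpa using hij)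
    rw [adj_dist F τ0 hadj, adj_dist F τ hadj]
  have hline : ∀ z ∈ H.verts, ∃ l : ℤ, F z - F x = C l * Nn ε := by
    intro z hz
    refine line ε hK (F z - F x) ((natDegree_sub_le _ _).trans (max_le (hdeg z) (hdeg x))) τ0
      (dist (pl K τ0 F z) (pl K τ0 F x)) (dist (pl K τ0 F z) (pl K τ0 F y)) ?_ ?_
    · filter_upwards [hconst] with τ hτ
      have := hτ ⟨z, hz⟩ ⟨x, hx⟩
      simp only at this
      rw [this, pl, pl, dist_iso, pt_sub, norm_pt, div_mul_cancel₀ _ (wd_pos K τ).ne']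
    · filter_upwards [hconst] with τ hτ
      have := hτ ⟨z, hz⟩ ⟨y, hy⟩
      simp only at this
      rw [this, pl, pl, dist_iso, pt_sub, norm_pt, div_mul_cancel₀ _ (wd_pos K τ).ne', ← hxy]
      congr 2
      ring
  choose! lam hlam using hline
  have hlaminj : ∀ u ∈ H.verts, ∀ v ∈ H.verts, lam u = lam v → u = v := by
    intro u hu v hv huv
    apply hinj
    have h1 := hlam u hu
    have h2 := hlam v hv
    rw [huv, ← h2] at h1
    have h3 : F u = F v := by linear_combination h1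
    rw [pl, pl, h3]
  -- the top vertex
  obtain ⟨v, hv, hmax⟩ := (Set.toFinite H.verts).exists_maximalFor lam _ ⟨a, ha⟩
  have hmax' : ∀ u ∈ H.verts, lam u ≤ lam v := by
    intro u hu
    by_contra hcon
    push Not at hcon
    exact absurd (hmax hu hcon.le) (by simpa using hcon)
  obtain ⟨z, hz, hzv⟩ : ∃ z ∈ H.verts, lam z ≤ lam v - 2 := by
    have n1 : lam a ≠ lam b := fun h => hab (hlaminj a ha b hb h)
    have n2 : lam a ≠ lam c := fun h => hac (hlaminj a ha c hc h)
    have n3 : lam b ≠ lam c := fun h => hbc (hlaminj b hb c hc h)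
    have m1 := hmax' a ha
    have m2 := hmax' b hb
    have m3 := hmax' c hc
    by_cases q1 : lam a ≤ lam v - 2
    · exact ⟨a, ha, q1⟩
    by_cases q2 : lam b ≤ lam v - 2
    · exact ⟨b, hb, q2⟩
    by_cases q3 : lam c ≤ lam v - 2
    · exact ⟨c, hc, q3⟩
    omega
  have hdiff : ∀ u ∈ H.verts, F v - F u = C (lam v - lam u) * Nn ε := by
    intro u hu
    have h1 := hlam v hv
    have h2 := hlam u hu
    rw [C_sub, sub_mul, ← h1, ← h2]
    ring
  set e : ℂ := pt K τ0 (Nn ε) with he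
  have hnorm : ‖e‖ = 1 := norm_pt_Nn τ0 ε
  have he0 : e ≠ 0 := by
    intro h
    rw [h, norm_zero] at hnorm
    exact zero_ne_one hnorm
  set p : ι → ℂ := fun u => pt K τ0 (F u) with hp
  set q : ℝ → (H.verts → Plane) := fun θ u =>
    if (u : ι) = v then iso (p v - e + Complex.exp (θ * Complex.I) * e) else iso (p u) with hq
  have hq0 : q 0 = fun u : H.verts => pl K τ0 F u := by
    funext u
    simp only [hq]
    split_ifs with h
    · rw [h, pl]
      simp [hp]
    · rfl
  have hqc : ContinuousAt q 0 := by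
    rw [continuousAt_pi]
    intro u
    simp only [hq]
    split_ifs with h
    · refine Continuous.continuousAt ?_
      exact iso.continuous.comp (by fun_prop)
    · exact continuousAt_const
  have hmem : ∀ᶠ θ in 𝓝 (0 : ℝ), q θ ∈ U := by
    apply hqc
    rw [hq0]
    exact hU
  have hs2 : (2 : ℤ) ≤ lam v - lam z := by omega
  have hD0 : (((lam v - lam z - 1 : ℤ) : ℂ)) * e ≠ 0 := by
    refine mul_ne_zero ?_ he0
    have : (lam v - lam z - 1 : ℤ) ≠ 0 := by omega
    exact_mod_cast this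
  obtain ⟨θ, hne, hmemθ⟩ := ((rot_changes hD0 he0).and_eventually hmem).exists
  have hpz : p v - p z = ((lam v - lam z : ℤ) : ℂ) * e := by
    simp only [hp]
    rw [pt_sub, hdiff z hz, pt_C_mul]
  have hzne : z ≠ v := by
    intro h
    rw [h] at hs2
    omega
  have hcong := hrig (q θ) hmemθ (by
    intro i j hij
    have hadjH : H.Adj (i : ι) (j : ι) := by simpa using hij
    have hadj : (gr K F).Adj (i : ι) (j : ι) := H.adj_sub hadjH
    have hij' : (i : ι) ≠ j := hadj.ne
    -- the top vertex is adjacent only to the next one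
    have htop : ∀ u : H.verts, (gr K F).Adj v (u : ι) →
        dist (iso (p v - e + Complex.exp (θ * Complex.I) * e)) (iso (p u)) = 1 := by
      intro u hadj'
      have h1 := hdiff u u.2
      have h2 := adj_line ε F _ hadj' h1
      have h3 := hmax' u u.2
      have h4 : lam v - lam u = 1 := by omega
      rw [h4, C_1, one_mul] at h1
      have h5 : p v - p u = e := by
        simp only [hp]
        rw [pt_sub, h1]
      rw [dist_iso]
      have h6 : p v - e + Complex.exp (θ * Complex.I) * e - p u = Complex.exp (θ * Complex.I) * e := by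
        linear_combination h5
      rw [h6, norm_mul, Complex.norm_exp_ofReal_mul_I, one_mul, hnorm]
    rw [adj_dist F τ0 hadj]
    simp only [hq]
    by_cases hi : (i : ι) = v
    · have hj : ¬ (j : ι) = v := fun h => hij' (hi.trans h.symm)
      rw [if_pos hi, if_neg hj]
      rw [hi] at hadj
      exact (htop j hadj).symm
    · rw [if_neg hi]
      by_cases hj : (j : ι) = v
      · rw [if_pos hj, dist_comm]
        rw [hj] at hadj
        exact (htop i hadj.symm).symm
      · rw [if_neg hj]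
        exact (adj_dist F τ0 hadj).symm) ⟨v, hv⟩ ⟨z, hz⟩
  simp only [hq] at hcong
  rw [if_pos trivial, if_neg hzne, pl, pl, dist_iso, dist_iso] at hcong
  apply hne
  have e1 : (((lam v - lam z - 1 : ℤ) : ℂ)) * e + Complex.exp (θ * Complex.I) * e =
      p v - e + Complex.exp (θ * Complex.I) * e - p z := by
    have := hpz
    push_cast at this ⊢
    linear_combination -this
  have e2 : (((lam v - lam z - 1 : ℤ) : ℂ)) * e + e = p v - p z := by
    have := hpz
    push_cast at this ⊢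
    linear_combination -this
  rw [e1, e2]
  exact hcong.symm

end Pool.Agent.Lib.MP_a65cb7_co.UD
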