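import Pool.Agent.Lib.MP_a65cb7_co.UnitB

open Polynomial Filter Topology

namespace Pool.Agent.Lib.MP_a65cb7_co.UD

/-- a time at which no nonzero polynomial vanishes -/
lemma exists_time : ∃ τ : ℝ, ∀ F : ℤ[X], ev τ F = 0 → F = 0 := by
  have h1 : {x : ℂ | IsAlgebraic ℤ x}.Countable := Algebraic.countable ℤ ℂ
  have h2 : Function.Injective fun τ : ℝ => (τ : ℂ) * Complex.I := by
    intro a b hab
    have := mul_right_cancel₀ Complex.I_ne_zero hab
    exact_mod_cast this
  have h3 : ((fun τ : ℝ => (τ : ℂ) * Complex.I) ⁻¹' {x : ℂ | IsAlgebraic ℤ x}).Countable :=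
    h1.preimage_of_injOn h2.injOn
  obtain ⟨τ, hτ⟩ : ∃ τ : ℝ, τ ∉ (fun τ : ℝ => (τ : ℂ) * Complex.I) ⁻¹' {x : ℂ | IsAlgebraic ℤ x} := by
    by_contra hcon
    push Not at hcon
    exact Set.not_countable_univ (h3.mono fun x _ => hcon x)
  refine ⟨τ, fun F hF => ?_⟩
  by_contra h0
  exact hτ ⟨F, h0, hF⟩

lemma pl_inj (K : ℕ) {τ : ℝ} (hτ : ∀ F : ℤ[X], ev τ F = 0 → F = 0) {ι : Type*} {F : ι → ℤ[X]}
    (hF : Function.Injective F) : Function.Injective (pl K τ F) := by
  intro x y h
  have h1 : pt K τ (F x) = pt K τ (F y) := iso.injective h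
  rw [← sub_eq_zero, pt_sub, pt, div_eq_zero_iff] at h1
  have h2 := h1.resolve_right (by exact_mod_cast (wd_pos K τ).ne')
  exact hF (sub_eq_zero.mp (hτ _ h2))

open Classical in
/-- the number of ordered adjacent pairs -/
noncomputable def prs {α : Type*} (G : SimpleGraph α) (W : Finset α) : ℕ :=
  ((W ×ˢ W).filter fun z => G.Adj z.1 z.2).card

open Classical in
lemma prs_erase {α : Type*} (G : SimpleGraph α) (W : Finset α) (v : α) :
    prs G W ≤ prs G (W.erase v) + 2 * (W.filter fun u => G.Adj v u).card := by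
  unfold prs
  have h : ((W ×ˢ W).filter fun z => G.Adj z.1 z.2) ⊆
      (((W.erase v) ×ˢ (W.erase v)).filter fun z => G.Adj z.1 z.2) ∪
        (((W.filter fun u => G.Adj v u).image fun u => (v, u)) ∪
          ((W.filter fun u => G.Adj v u).image fun u => (u, v))) := by
    rintro ⟨a, b⟩ hab
    simp only [Finset.mem_filter, Finset.mem_product, Finset.mem_union, Finset.mem_erase,
      Finset.mem_image, Prod.mk.injEq] at hab ⊢
    obtain ⟨⟨ha, hb⟩, hadj⟩ := hab
    by_cases h1 : a = v
    · right; left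
      exact ⟨b, ⟨hb, h1 ▸ hadj⟩, h1.symm, rfl⟩
    · by_cases h2 : b = v
      · right; right
        exact ⟨a, ⟨ha, h2 ▸ hadj.symm⟩, rfl, h2.symm⟩
      · left
        exact ⟨⟨⟨h1, ha⟩, h2, hb⟩, hadj⟩
  refine (Finset.card_le_card h).trans ((Finset.card_union_le _ _).trans ?_)
  refine Nat.add_le_add_left ((Finset.card_union_le _ _).trans ?_) _
  have e1 := Finset.card_image_le (s := W.filter fun u => G.Adj v u) (f := fun u => (v, u))
  have e2 := Finset.card_image_le (s := W.filter fun u => G.Adj v u) (f := fun u => (u, v))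
  omega

open Classical in
/-- a subset of large minimum degree -/
theorem exists_minDeg {α : Type*} (G : SimpleGraph α) (V : Finset α) (hV : V.Nonempty) (d : ℕ)
    (hd : 0 < d) (h : d * V.card ≤ prs G V) :
    ∃ W ⊆ V, W.Nonempty ∧ ∀ v ∈ W, d ≤ 2 * (W.filter fun u => G.Adj v u).card := by
  set f : Finset α → ℤ := fun W => (prs G W : ℤ) - d * W.card with hf
  obtain ⟨W, hW, hmax⟩ := Finset.exists_max_image (V.powerset.filter fun W => W.Nonempty) f
    ⟨V, by simp [hV]⟩
  simp only [Finset.mem_filter, Finset.mem_powerset] at hW hmax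
  refine ⟨W, hW.1, hW.2, fun v hv => ?_⟩
  have hfV : 0 ≤ f V := by
    simp only [hf]
    have : ((d * V.card : ℕ) : ℤ) ≤ prs G V := by exact_mod_cast h
    push_cast at this
    linarith
  have hfW : 0 ≤ f W := hfV.trans (hmax V ⟨subset_rfl, hV⟩)
  have h1 := prs_erase G W v
  have hcard := Finset.card_erase_add_one hv
  by_cases hne : (W.erase v).Nonempty
  · have h2 := hmax (W.erase v) ⟨(Finset.erase_subset _ _).trans hW.1, hne⟩
    simp only [hf] at h2
    have h3 : (W.card : ℤ) = ((W.erase v).card : ℤ) + 1 := by exact_mod_cast hcard.symm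
    have h4 : (prs G W : ℤ) ≤ prs G (W.erase v) + 2 * ((W.filter fun u => G.Adj v u).card : ℤ) := by
      exact_mod_cast h1
    rw [h3] at h2
    have h5 : (d : ℤ) ≤ 2 * ((W.filter fun u => G.Adj v u).card : ℤ) := by linarith
    exact_mod_cast h5
  · exfalso
    rw [Finset.not_nonempty_iff_eq_empty] at hne
    have h2 : prs G (W.erase v) = 0 := by
      rw [hne]; simp [prs]
    have h3 : (W.filter fun u => G.Adj v u).card = 0 := by
      rw [Finset.card_eq_zero, Finset.filter_eq_empty_iff]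
      intro u hu hadj
      have : u ∈ W.erase v := Finset.mem_erase.mpr ⟨hadj.ne', hu⟩
      rw [hne] at this
      exact absurd this (Finset.notMem_empty _)
    rw [hne, Finset.card_empty] at hcard
    rw [h2, h3] at h1
    simp only [hf] at hfW
    rw [← hcard] at hfW
    have : prs G W = 0 := by omega
    rw [this] at hfW
    push_cast at hfW
    have : (0 : ℤ) < d := by exact_mod_cast hd
    linarith

/-- coefficients of a product of linear factors -/
lemma coeff_prod_le {ι : Type*} (s : Finset ι) (a : ι → ℤ) (B : ι → ℕ) (hB : ∀ i, (a i).natAbs ≤ B i)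
    (j : ℕ) : ((∏ i ∈ s, (X - C (a i))).coeff j).natAbs ≤ ∏ i ∈ s, (1 + B i) := by
  classical
  induction s using Finset.induction_on generalizing j with
  | empty =>
    rw [Finset.prod_empty, Finset.prod_empty, coeff_one]
    split_ifs <;> simp
  | insert i s hi ih =>
    rw [Finset.prod_insert hi, Finset.prod_insert hi]
    set P := ∏ i ∈ s, (X - C (a i)) with hP
    set Q := ∏ i ∈ s, (1 + B i) with hQ
    have h1 : ((X - C (a i)) * P).coeff j = (X * P).coeff j - a i * P.coeff j := by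
      rw [sub_mul, coeff_sub, coeff_C_mul]
    have h2 : ((X * P).coeff j).natAbs ≤ Q := by
      cases j with
      | zero => rw [coeff_X_mul_zero]; simp
      | succ j => rw [coeff_X_mul]; exact ih j
    have h3 : (a i * P.coeff j).natAbs ≤ B i * Q := by
      rw [Int.natAbs_mul]
      exact Nat.mul_le_mul (hB i) (ih j)
    rw [h1]
    calc ((X * P).coeff j - a i * P.coeff j).natAbs
        ≤ ((X * P).coeff j).natAbs + (a i * P.coeff j).natAbs := Int.natAbs_sub_le _ _
      _ ≤ Q + B i * Q := Nat.add_le_add h2 h3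
      _ = (1 + B i) * Q := by ring

lemma Nn_coeff_le {K : ℕ} (ε : Fin K → Bool) (j : ℕ) : ((Nn ε).coeff j).natAbs ≤ (K + 1).factorial := by
  refine (coeff_prod_le Finset.univ (rt ε) (fun k => (k : ℕ) + 1) (fun k => (rt_natAbs ε k).le) j).trans
    (le_of_eq ?_)
  rw [Fin.prod_univ_eq_prod_range (fun k => 1 + (k + 1)) K]
  induction K with
  | zero => simp
  | succ K ih =>
    rw [Finset.prod_range_succ, ih (fun k => ε k.castSucc), Nat.factorial_succ (K + 1)]
    ring

/-- the polynomial of a coefficient vector -/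
noncomputable def tp {K M : ℕ} (v : Fin (K + 1) → Fin M) : ℤ[X] :=
  ∑ j : Fin (K + 1), C (((v j : ℕ) : ℤ)) * X ^ (j : ℕ)

lemma tp_coeff {K M : ℕ} (v : Fin (K + 1) → Fin M) (j : Fin (K + 1)) : (tp v).coeff j = (v j : ℕ) := by
  unfold tp
  rw [finsetSum_coeff, Finset.sum_eq_single j]
  · simp
  · intro i _ hi
    rw [coeff_C_mul, coeff_X_pow, if_neg, mul_zero]
    intro h
    exact hi (Fin.ext h.symm)
  · intro h
    exact absurd (Finset.mem_univ j) h

lemma tp_natDegree {K M : ℕ} (v : Fin (K + 1) → Fin M) : (tp v).natDegree ≤ K := by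
  unfold tp
  refine natDegree_sum_le_of_forall_le _ _ fun j _ => ?_
  exact (natDegree_C_mul_X_pow_le _ _).trans (Nat.lt_succ_iff.mp j.isLt)

lemma tp_inj {K M : ℕ} : Function.Injective (tp : (Fin (K + 1) → Fin M) → ℤ[X]) := by
  intro u v h
  funext j
  have h1 := tp_coeff u j
  rw [h, tp_coeff] at h1
  exact Fin.ext (by exact_mod_cast h1.symm)

lemma tp_sub {K M : ℕ} (u v : Fin (K + 1) → Fin M) (ε : Fin K → Bool)
    (h : ∀ j : Fin (K + 1), ((v j : ℕ) : ℤ) = (u j : ℕ) + (Nn ε).coeff j) : tp v - tp u = Nn ε := by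
  ext j
  rw [coeff_sub]
  by_cases hj : j < K + 1
  · have h1 := tp_coeff u ⟨j, hj⟩
    have h2 := tp_coeff v ⟨j, hj⟩
    have h3 := h ⟨j, hj⟩
    simp only at h1 h2 h3
    rw [h1, h2, h3]
    ring
  · have e1 : (tp u).coeff j = 0 := coeff_eq_zero_of_natDegree_lt (by have := tp_natDegree u; omega)
    have e2 : (tp v).coeff j = 0 := coeff_eq_zero_of_natDegree_lt (by have := tp_natDegree v; omega)
    have e3 : (Nn ε).coeff j = 0 := coeff_eq_zero_of_natDegree_lt (by rw [Nn_natDegree]; omega)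
    rw [e1, e2, e3]
    ring

open Classical in
/-- many adjacent pairs in the box -/
theorem prs_box (K m : ℕ) :
    2 ^ K * m ^ (K + 1) ≤
      prs (gr K (tp : (Fin (K + 1) → Fin (m + 2 * (K + 1).factorial)) → ℤ[X])) Finset.univ := by
  set B := (K + 1).factorial with hB
  have hc : ∀ (ε : Fin K → Bool) (j : Fin (K + 1)), -(B : ℤ) ≤ (Nn ε).coeff j ∧ (Nn ε).coeff j ≤ B := by
    intro ε j
    have := Nn_coeff_le ε j
    omega
  let lo : (Fin (K + 1) → Fin m) → (Fin (K + 1) → Fin (m + 2 * B)) := fun u j =>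
    ⟨(u j : ℕ) + B, by have := (u j).isLt; omega⟩
  let hi : (Fin K → Bool) → (Fin (K + 1) → Fin m) → (Fin (K + 1) → Fin (m + 2 * B)) := fun ε u j =>
    ⟨(((u j : ℕ) + B : ℤ) + (Nn ε).coeff j).toNat, by
      have := (u j).isLt; have := hc ε j; omega⟩
  have hhi : ∀ ε u, tp (hi ε u) - tp (lo u) = Nn ε := by
    intro ε u
    refine tp_sub _ _ ε fun j => ?_
    have := hc ε j
    simp only [hi, lo]
    rw [Int.toNat_of_nonneg (by omega)]
    push_cast
    ring
  unfold prs
  have hcard : 2 ^ K * m ^ (K + 1) =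
      (Finset.univ : Finset ((Fin K → Bool) × (Fin (K + 1) → Fin m))).card := by
    simp
  rw [hcard]
  refine Finset.card_le_card_of_injOn (fun z => (lo z.2, hi z.1 z.2)) ?_ ?_
  · intro z _
    simp only [Finset.coe_filter, Finset.mem_product, Finset.mem_univ, and_self, true_and,
      Set.mem_ofPred_eq]
    exact ⟨z.1, Or.inr (hhi _ _)⟩
  · rintro ⟨ε, u⟩ _ ⟨δ, v⟩ _ h
    simp only [Prod.mk.injEq] at h
    obtain ⟨h1, h2⟩ := h
    have e1 : u = v := by
      funext j
      have := congrArg Fin.val (congrFun h1 j)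
      simp only [lo] at this
      exact Fin.ext (by omega)
    subst e1
    have e2 : Nn ε = Nn δ := by rw [← hhi ε u, ← hhi δ u, h2]
    rw [Nn_inj e2]

end Pool.Agent.Lib.MP_a65cb7_co.UD
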