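import Pool.Agent.Lib.MP_a65cb7_co.UnitC

open Polynomial Filter Topology

namespace Pool.Agent.Lib.MP_a65cb7_co.UD

/-- at most two neighbours on a line -/
lemma collinear_le {n : ℕ} (G : SimpleGraph (Fin n)) (p : Fin n → EuclideanSpace ℝ (Fin 2))
    (hp : Function.Injective p) (hu : ∀ u v, G.Adj u v → dist (p u) (p v) = 1) (v : Fin n)
    (S : Set (Fin n)) (hS : S ⊆ G.neighborSet v) (hc : Collinear ℝ (p '' S)) : S.ncard ≤ 2 := by
  by_contra hcon
  push Not at hcon
  rw [Set.two_lt_ncard_iff (Set.toFinite _)] at hcon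
  obtain ⟨a, b, c, ha, hb, hc', hab, hac, hbc⟩ := hcon
  have hcos : EuclideanGeometry.Cospherical (p '' S) := by
    refine ⟨p v, 1, ?_⟩
    rintro _ ⟨x, hx, rfl⟩
    rw [dist_comm]
    exact hu v x (hS hx)
  have h1 := hcos.affineIndependent_of_mem_of_ne (Set.mem_image_of_mem p ha)
    (Set.mem_image_of_mem p hb) (Set.mem_image_of_mem p hc') (hp.ne hab) (hp.ne hac) (hp.ne hbc)
  rw [affineIndependent_iff_not_collinear_set] at h1
  apply h1
  refine hc.subset ?_
  rintro x (rfl | rfl | rfl)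
  · exact Set.mem_image_of_mem p ha
  · exact Set.mem_image_of_mem p hb
  · exact Set.mem_image_of_mem p hc'

lemma bern (K : ℕ) (B : ℕ) : (2 * (K + 1) * (2 * B)) ^ (K + 1) ≤
    2 * (2 * (K + 1) * (2 * B) - 2 * B) ^ (K + 1) := by
  rcases Nat.eq_zero_or_pos B with h | hB
  · subst h; simp
  have h1 : 2 * (K + 1) * (2 * B) - 2 * B = (2 * K + 1) * (2 * B) := by
    have : 2 * (K + 1) * (2 * B) = (2 * K + 1) * (2 * B) + 2 * B := by ring
    omega
  rw [h1, mul_pow (2 * (K + 1)) (2 * B), mul_pow (2 * K + 1) (2 * B), ← mul_assoc 2]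
  refine Nat.mul_le_mul_right _ ?_
  have h2 := one_add_mul_le_pow (a := -(1 / (2 * ((K : ℝ) + 1)))) (by
    have : (1 : ℝ) / (2 * ((K : ℝ) + 1)) ≤ 1 := by
      rw [div_le_one (by positivity)]
      have : (0 : ℝ) ≤ K := Nat.cast_nonneg K
      linarith
    linarith) (K + 1)
  have h3 : (1 : ℝ) + ((K + 1 : ℕ) : ℝ) * -(1 / (2 * ((K : ℝ) + 1))) = 1 / 2 := by
    push_cast
    field_simp
    ring
  rw [h3] at h2
  have h4 : (1 : ℝ) + -(1 / (2 * ((K : ℝ) + 1))) = (2 * K + 1) / (2 * (K + 1)) := by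
    field_simp
    ring
  rw [h4, div_pow, div_le_div_iff₀ (by norm_num) (by positivity)] at h2
  have h5 : (1 : ℝ) * (2 * ((K : ℝ) + 1)) ^ (K + 1) ≤ (2 * K + 1) ^ (K + 1) * 2 := h2
  have h6 : (((2 * (K + 1)) ^ (K + 1) : ℕ) : ℝ) ≤ ((2 * (2 * K + 1) ^ (K + 1) : ℕ) : ℝ) := by
    push_cast
    linarith
  exact_mod_cast h6

/-- the framework with parameter `K` -/
theorem framework (K : ℕ) (hK : 2 ≤ K) : ∃ n : ℕ, 2 ^ (K - 2) ≤ n ∧
    n ≤ (4 * (K + 1) * (K + 1).factorial) ^ (K + 1) ∧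
    ∃ (G : SimpleGraph (Fin n)) (p : Fin n → EuclideanSpace ℝ (Fin 2)),
      (∀ v, 2 ^ (K - 2) ≤ (G.neighborSet v).ncard) ∧
      Function.Injective p ∧ (∀ u v, G.Adj u v → dist (p u) (p v) = 1) ∧
      ∀ H : G.Subgraph, 3 ≤ H.verts.ncard → ¬ IsRigid H.coe (fun v : H.verts => p v) := by
  classical
  set B := (K + 1).factorial with hB
  set M := 2 * (K + 1) * (2 * B) with hM
  set m := M - 2 * B with hm
  have hMm : m + 2 * B = M := by
    have : 2 * B ≤ M := by
      rw [hM]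
      exact Nat.le_mul_of_pos_left _ (by omega)
    omega
  have hBpos : 0 < B := Nat.factorial_pos _
  have hMpos : 0 < M := by rw [hM]; positivity
  set G0 := gr K (tp : (Fin (K + 1) → Fin (m + 2 * B)) → ℤ[X]) with hG0
  have h1 := prs_box K m
  rw [← hB, ← hG0] at h1
  have h2 : 2 ^ (K - 1) * (Finset.univ : Finset (Fin (K + 1) → Fin (m + 2 * B))).card ≤
      prs G0 Finset.univ := by
    refine le_trans ?_ h1
    have e1 : (Finset.univ : Finset (Fin (K + 1) → Fin (m + 2 * B))).card = M ^ (K + 1) := by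
      rw [Finset.card_univ, Fintype.card_fun, Fintype.card_fin, Fintype.card_fin, hMm]
    rw [e1]
    have e2 := bern K B
    rw [← hM, ← hm] at e2
    calc 2 ^ (K - 1) * M ^ (K + 1) ≤ 2 ^ (K - 1) * (2 * m ^ (K + 1)) := Nat.mul_le_mul_left _ e2
      _ = 2 ^ (K - 1 + 1) * m ^ (K + 1) := by rw [pow_succ]; ring
      _ = 2 ^ K * m ^ (K + 1) := by rw [Nat.sub_add_cancel (by omega)]
  have : Nonempty (Fin (m + 2 * B)) := ⟨⟨0, by omega⟩⟩
  obtain ⟨W, _, hWne, hWdeg⟩ := exists_minDeg G0 Finset.univ Finset.univ_nonempty (2 ^ (K - 1))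
    (by positivity) h2
  obtain ⟨τ, hτ⟩ := exists_time
  let e : Fin W.card ≃ W := W.equivFin.symm
  let F : Fin W.card → ℤ[X] := fun i => tp (e i : Fin (K + 1) → Fin (m + 2 * B))
  have hFinj : Function.Injective F := fun i j h => e.injective (Subtype.ext (tp_inj h))
  have hpinj : Function.Injective (pl K τ F) := pl_inj K hτ hFinj
  have hdeg : ∀ v, 2 ^ (K - 2) ≤ ((gr K F).neighborSet v).ncard := by
    intro v
    have h3 := hWdeg (e v) (e v).2
    have h4 : (W.filter fun u => G0.Adj (e v : Fin (K + 1) → Fin (m + 2 * B)) u).card ≤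
        ((gr K F).neighborSet v).ncard := by
      rw [← Set.ncard_coe_finset]
      have h5 : ((W.filter fun u => G0.Adj (e v : Fin (K + 1) → Fin (m + 2 * B)) u : Finset _) :
          Set (Fin (K + 1) → Fin (m + 2 * B))) ⊆
          (fun i => (e i : Fin (K + 1) → Fin (m + 2 * B))) '' (gr K F).neighborSet v := by
        intro u hu
        rw [Finset.mem_coe, Finset.mem_filter] at hu
        obtain ⟨i, hi⟩ := e.surjective ⟨u, hu.1⟩
        refine ⟨i, ?_, congrArg Subtype.val hi⟩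
        rw [SimpleGraph.mem_neighborSet]
        have h6 : (e i : Fin (K + 1) → Fin (m + 2 * B)) = u := congrArg Subtype.val hi
        have h7 := hu.2
        rw [← h6] at h7
        exact h7
      exact (Set.ncard_le_ncard h5 (Set.toFinite _)).trans (Set.ncard_image_le (Set.toFinite _))
    have h8 : 2 ^ (K - 1) = 2 * 2 ^ (K - 2) := by
      rw [← pow_succ', show K - 2 + 1 = K - 1 by omega]
    omega
  refine ⟨W.card, ?_, ?_, gr K F, pl K τ F, hdeg, hpinj, fun u v h => adj_dist F τ h, ?_⟩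
  · obtain ⟨w, hw⟩ := hWne
    refine (hdeg (e.symm ⟨w, hw⟩)).trans ?_
    refine (Set.ncard_le_ncard (Set.subset_univ _) (Set.toFinite _)).trans ?_
    rw [Set.ncard_univ, Nat.card_eq_fintype_card, Fintype.card_fin]
  · refine (Finset.card_le_univ W).trans ?_
    rw [Fintype.card_fun, Fintype.card_fin, Fintype.card_fin, hMm, hM]
    exact Nat.pow_le_pow_left (by nlinarith) _
  · intro H hH
    exact not_rigid (by omega) F (fun i => tp_natDegree _) τ hpinj H hH

lemma fact_le (k : ℕ) : (k + 1).factorial ≤ (k + 1) ^ k := by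
  induction k with
  | zero => simp
  | succ k ih =>
    rw [Nat.factorial_succ, pow_succ']
    exact Nat.mul_le_mul_left _ (ih.trans (Nat.pow_le_pow_left (by omega) _))

/-- the growth estimate -/
lemma growth (K n : ℕ) (hK : 15 ≤ K) (h1 : 2 ^ (K - 2) ≤ n)
    (h2 : n ≤ (4 * (K + 1) * (K + 1).factorial) ^ (K + 1)) :
    (n : ℝ) * Real.exp (√(Real.log n / Real.log (Real.log n)) / 2) ≤ (n : ℝ) * 2 ^ (K - 3 : ℕ) := by
  refine mul_le_mul_of_nonneg_left ?_ (Nat.cast_nonneg n)
  set x : ℝ := (K : ℝ) + 1 with hx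
  have hK' : (15 : ℝ) ≤ K := by exact_mod_cast hK
  have hx16 : 16 ≤ x := by rw [hx]; linarith
  have hx0 : 0 < x := by linarith
  have hlogx : 1 ≤ Real.log x := by
    rw [Real.le_log_iff_exp_le hx0]
    have := Real.exp_one_lt_d9
    linarith
  have hn0 : (0 : ℝ) < n := by
    have : 0 < 2 ^ (K - 2) := by positivity
    exact_mod_cast lt_of_lt_of_le this h1
  set L := Real.log n with hL
  set Y : ℝ := 2 * x ^ 2 * Real.log x with hY
  -- L ≤ Y
  have hLY : L ≤ Y := by
    have e1 : 4 * (K + 1) * (K + 1).factorial ≤ (K + 1) ^ (K + 2) := by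
      have f1 : (K + 1).factorial ≤ (K + 1) ^ K := fact_le K
      calc 4 * (K + 1) * (K + 1).factorial ≤ (K + 1) * (K + 1) * (K + 1) ^ K :=
            Nat.mul_le_mul (Nat.mul_le_mul_right _ (by omega)) f1
        _ = (K + 1) ^ (K + 2) := by ring
    have e2 : n ≤ ((K + 1) ^ (K + 2)) ^ (K + 1) := h2.trans (Nat.pow_le_pow_left e1 _)
    have e3 : (n : ℝ) ≤ (x ^ (K + 2)) ^ (K + 1) := by
      rw [hx]; exact_mod_cast e2
    calc L ≤ Real.log ((x ^ (K + 2)) ^ (K + 1)) := Real.log_le_log hn0 e3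
      _ = ((K + 1 : ℕ) : ℝ) * (((K + 2 : ℕ) : ℝ) * Real.log x) := by
          rw [Real.log_pow, Real.log_pow]
      _ ≤ 2 * x ^ 2 * Real.log x := by
          have : ((K + 2 : ℕ) : ℝ) ≤ 2 * x := by push_cast; linarith
          have h3 : ((K + 1 : ℕ) : ℝ) = x := by push_cast; rfl
          rw [h3]
          nlinarith [mul_nonneg hx0.le (by linarith : (0 : ℝ) ≤ Real.log x)]
  -- L ≥ e
  have hLe : Real.exp 1 ≤ L := by
    have e1 : ((2 : ℝ)) ^ (K - 2 : ℕ) ≤ n := by exact_mod_cast h1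
    have e2 : Real.log ((2 : ℝ) ^ (K - 2 : ℕ)) ≤ L := Real.log_le_log (by positivity) e1
    rw [Real.log_pow, Nat.cast_sub (by omega)] at e2
    have := Real.log_two_gt_d9
    have := Real.exp_one_lt_d9
    push_cast at e2
    nlinarith
  have hL0 : 0 < L := lt_of_lt_of_le (Real.exp_pos 1) hLe
  have hlogL : 1 ≤ Real.log L := by
    rw [Real.le_log_iff_exp_le hL0]; exact hLe
  have hY0 : 0 < Y := lt_of_lt_of_le hL0 hLY
  have hlogY : 2 * Real.log x ≤ Real.log Y := by
    have : x ^ 2 ≤ Y := by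
      rw [hY]; nlinarith [sq_nonneg x]
    calc 2 * Real.log x = Real.log (x ^ 2) := by rw [Real.log_pow]; norm_num
      _ ≤ Real.log Y := Real.log_le_log (by positivity) this
  have hmono := Real.log_div_self_antitoneOn (Set.mem_Ici.mpr hLe)
    (Set.mem_Ici.mpr (hLe.trans hLY)) hLY
  simp only at hmono
  have hratio : L / Real.log L ≤ x ^ 2 := by
    have e1 : 2 * Real.log x / Y ≤ Real.log L / L :=
      (div_le_div_of_nonneg_right hlogY hY0.le).trans hmono
    have e2 : 2 * Real.log x / Y = 1 / x ^ 2 := by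
      rw [hY]; field_simp
    rw [e2, div_le_div_iff₀ (by positivity) hL0] at e1
    rw [div_le_iff₀ (by linarith)]
    linarith
  have hsqrt : √(L / Real.log L) ≤ x := by
    rw [Real.sqrt_le_left hx0.le]
    exact hratio
  have hfin : Real.exp (√(L / Real.log L) / 2) ≤ Real.exp (x / 2) :=
    Real.exp_le_exp.mpr (by linarith)
  refine hfin.trans ?_
  have e4 : ((2 : ℝ)) ^ (K - 3 : ℕ) = Real.exp (((K - 3 : ℕ) : ℝ) * Real.log 2) := by
    rw [← Real.log_pow, Real.exp_log (by positivity)]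
  rw [e4, Real.exp_le_exp, Nat.cast_sub (by omega)]
  have := Real.log_two_gt_d9
  rw [hx]
  push_cast
  nlinarith

end Pool.Agent.Lib.MP_a65cb7_co.UD
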